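import Pool.Agent.Y116.MT.Tri

/-!
# Triangulated categories generated by a Schur class of objects
-/

set_option autoImplicit false
set_option linter.unusedSectionVars false
set_option linter.unusedSimpArgs false
set_option backward.isDefEq.respectTransparency false
set_option backward.defeqAttrib.useBackward true

open CategoryTheory Limits Pretriangulated Triangulated

namespace Run7.h478.FF

open Pool.Agent.Y116.MT

universe v u

section

variable {C : Type u} [Category.{v} C] [Preadditive C]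

/-- `Z` is the direct sum of `S` and `W`. -/
structure Spl (S Z W : C) where
  /-- the inclusion of `S` -/
  i : S ⟶ Z
  /-- the projection to `S` -/
  p : Z ⟶ S
  /-- the inclusion of `W` -/
  j : W ⟶ Z
  /-- the projection to `W` -/
  q : Z ⟶ W
  ip : i ≫ p = 𝟙 S
  jq : j ≫ q = 𝟙 W
  iq : i ≫ q = 0
  jp : j ≫ p = 0
  tot : p ≫ i + q ≫ j = 𝟙 Z

/-- The sum in the other order. -/
def Spl.symm {S Z W : C} (s : Spl S Z W) : Spl W Z S :=
  ⟨s.j, s.q, s.i, s.p, s.jq, s.ip, s.jp, s.iq, by rw [add_comm]; exact s.tot⟩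

lemma Spl.fac {S Z W : C} (s : Spl S Z W) {X : C} (u : X ⟶ Z) (h : u ≫ s.p = 0) :
    u = (u ≫ s.q) ≫ s.j := by
  calc u = u ≫ (s.p ≫ s.i + s.q ≫ s.j) := by rw [s.tot, Category.comp_id]
    _ = (u ≫ s.q) ≫ s.j := by
      rw [Preadditive.comp_add, ← Category.assoc u s.p, h, zero_comp, zero_add, Category.assoc]

lemma Spl.fac' {S Z W : C} (s : Spl S Z W) {X : C} (u : Z ⟶ X) (h : s.i ≫ u = 0) :
    u = s.q ≫ (s.j ≫ u) := by
  calc u = (s.p ≫ s.i + s.q ≫ s.j) ≫ u := by rw [s.tot, Category.id_comp]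
    _ = s.q ≫ (s.j ≫ u) := by
      rw [Preadditive.add_comp, Category.assoc, h, comp_zero, zero_add, Category.assoc]

/-- The image of a sum under an additive functor. -/
def Spl.map {D : Type*} [Category D] [Preadditive D] (F : C ⥤ D) [F.Additive] {S Z W : C}
    (s : Spl S Z W) : Spl (F.obj S) (F.obj Z) (F.obj W) :=
  ⟨F.map s.i, F.map s.p, F.map s.j, F.map s.q,
    by rw [← F.map_comp, s.ip, F.map_id], by rw [← F.map_comp, s.jq, F.map_id],
    by rw [← F.map_comp, s.iq, F.map_zero], by rw [← F.map_comp, s.jp, F.map_zero],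
    by rw [← F.map_comp, ← F.map_comp, ← F.map_add, s.tot, F.map_id]⟩

/-- Change of the sum by an isomorphism. -/
def Spl.iso {S Z W Z' : C} (s : Spl S Z W) (e : Z ≅ Z') : Spl S Z' W :=
  ⟨s.i ≫ e.hom, e.inv ≫ s.p, s.j ≫ e.hom, e.inv ≫ s.q, by simp [s.ip], by simp [s.jq],
    by simp [s.iq], by simp [s.jp], by
      have : (e.inv ≫ s.p) ≫ s.i ≫ e.hom + (e.inv ≫ s.q) ≫ s.j ≫ e.hom =
        e.inv ≫ (s.p ≫ s.i + s.q ≫ s.j) ≫ e.hom := by simp
      rw [this, s.tot, Category.id_comp, e.inv_hom_id]⟩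

/-- Replacing the inclusion of the first summand. -/
noncomputable def Spl.change {S S' Z W : C} (s : Spl S' Z W) (u : S ⟶ Z) [IsIso (u ≫ s.p)] :
    Spl S Z W where
  i := u
  p := s.p ≫ inv (u ≫ s.p)
  j := s.j
  q := s.q - s.p ≫ inv (u ≫ s.p) ≫ u ≫ s.q
  ip := by rw [← Category.assoc, IsIso.hom_inv_id]
  jq := by
    rw [Preadditive.comp_sub, s.jq, ← Category.assoc, s.jp, zero_comp, sub_zero]
  iq := by
    rw [Preadditive.comp_sub, ← Category.assoc u s.p, IsIso.hom_inv_id_assoc, sub_self]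
  jp := by rw [← Category.assoc, s.jp, zero_comp]
  tot := by
    have h1 : u ≫ s.p ≫ s.i + u ≫ s.q ≫ s.j = u := by
      rw [← Preadditive.comp_add, s.tot, Category.comp_id]
    have h2 : u ≫ s.q ≫ s.j = u - u ≫ s.p ≫ s.i := eq_sub_of_add_eq' h1
    rw [Preadditive.sub_comp]
    simp only [Category.assoc]
    rw [h2, Preadditive.comp_sub, Preadditive.comp_sub]
    have h3 : s.p ≫ inv (u ≫ s.p) ≫ u ≫ s.p ≫ s.i = s.p ≫ s.i := by
      rw [← Category.assoc u s.p, IsIso.inv_hom_id_assoc]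
    rw [h3]
    have h4 := s.tot
    have h5 : s.q ≫ s.j = 𝟙 Z - s.p ≫ s.i := eq_sub_of_add_eq' h4
    rw [h5]
    abel

end

section

variable {C : Type u} [Category.{v} C] [Preadditive C] [HasZeroObject C] [HasShift C ℤ]
  [∀ n : ℤ, (shiftFunctor C n).Additive] [Pretriangulated C]

/-- A triangle with vanishing connecting map is split. -/
lemma spl_of_dist {S Z W : C} {f : S ⟶ Z} {g : Z ⟶ W} {h : W ⟶ S⟦(1 : ℤ)⟧}
    (hT : Triangle.mk f g h ∈ distTriang C) (hh : h = 0) :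
    ∃ s : Spl S Z W, s.i = f ∧ s.q = g := by
  obtain ⟨r, hr⟩ := split3 hT hh
  obtain ⟨t, ht⟩ := split3' hT hh
  have h12 : f ≫ g = 0 := comp12 hT
  obtain ⟨j, h1, h2⟩ : ∃ j : W ⟶ Z, j ≫ g = 𝟙 _ ∧ j ≫ r = 0 := by
    refine ⟨t - t ≫ r ≫ f, ?_, ?_⟩
    · rw [Preadditive.sub_comp, ht]
      simp [h12]
    · rw [Preadditive.sub_comp]
      simp [hr]
  have h3 : r ≫ f + g ≫ j = 𝟙 Z := by
    have h4 : f ≫ (𝟙 Z - (r ≫ f + g ≫ j)) = 0 := by
      rw [Preadditive.comp_sub, Preadditive.comp_add, Category.comp_id, ← Category.assoc f r, hr,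
        ← Category.assoc f g, h12, zero_comp, add_zero, Category.id_comp, sub_self]
    obtain ⟨l, hl⟩ := ye2 hT _ h4
    have h5 : j ≫ (𝟙 Z - (r ≫ f + g ≫ j)) = 0 := by
      rw [Preadditive.comp_sub, Preadditive.comp_add, Category.comp_id,
        ← Category.assoc _ r, h2, zero_comp, zero_add, ← Category.assoc _ g, h1,
        Category.id_comp, sub_self]
    rw [hl, ← Category.assoc, h1, Category.id_comp] at h5
    rw [h5, comp_zero] at hl
    exact (sub_eq_zero.1 hl).symm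
  exact ⟨⟨f, r, j, g, hr, h1, h12, h2, h3⟩, rfl, rfl⟩

/-- Two cones of the same map are isomorphic. -/
lemma cone_iso {X Y Z Z' : C} {f : X ⟶ Y} {g : Y ⟶ Z} {h : Z ⟶ X⟦(1 : ℤ)⟧}
    {g' : Y ⟶ Z'} {h' : Z' ⟶ X⟦(1 : ℤ)⟧} (hT : Triangle.mk f g h ∈ distTriang C)
    (hT' : Triangle.mk f g' h' ∈ distTriang C) : ∃ e : Z ≅ Z', g ≫ e.hom = g' := by
  let e := isoTriangleOfIso₁₂ _ _ hT hT' (Iso.refl X) (Iso.refl Y) (by simp)
  refine ⟨Triangle.π₃.mapIso e, ?_⟩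
  have h1 := e.hom.comm₂
  simpa [e] using h1

/-- The triangle of a direct sum. -/
lemma Spl.dist {S Z W : C} (s : Spl S Z W) :
    Triangle.mk s.i s.q (0 : W ⟶ S⟦(1 : ℤ)⟧) ∈ distTriang C := by
  obtain ⟨W', c, h, hT⟩ := distinguished_cocone_triangle s.i
  have hh : h = 0 := by
    have h1 := comp31 hT
    have h2 : (s.i)⟦(1 : ℤ)⟧' ≫ (s.p)⟦(1 : ℤ)⟧' = 𝟙 _ := by
      rw [← Functor.map_comp, s.ip, CategoryTheory.Functor.map_id]
    rw [← Category.comp_id h, ← h2, ← Category.assoc, h1, zero_comp]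
  obtain ⟨l, hl⟩ := ye2 hT s.q s.iq
  obtain ⟨t, ht⟩ := split3' hT hh
  have hic : s.i ≫ c = 0 := comp12 hT
  have h1 : (s.j ≫ c) ≫ l = 𝟙 _ := by rw [Category.assoc, ← hl, s.jq]
  have h2 : l ≫ (s.j ≫ c) = 𝟙 _ := by
    have h3 : c ≫ l ≫ s.j ≫ c = c := by
      rw [← Category.assoc c l, ← hl, ← Category.assoc]
      have h4 : s.q ≫ s.j = 𝟙 Z - s.p ≫ s.i := eq_sub_of_add_eq' s.tot
      rw [h4, Preadditive.sub_comp, Category.id_comp, Category.assoc, hic, comp_zero, sub_zero]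
    rw [← Category.id_comp (l ≫ s.j ≫ c), ← ht, Category.assoc, h3]
  let e : W' ≅ W := ⟨l, s.j ≫ c, h2, h1⟩
  refine isomorphic_distinguished _ hT _ ?_
  exact Triangle.isoMk _ _ (Iso.refl _) (Iso.refl _) e.symm (by simp)
    (by
      have h5 : s.q ≫ e.inv = c := by
        rw [hl, Category.assoc, e.hom_inv_id, Category.comp_id]
      simpa using h5) (by simp [hh])

variable (P : ObjectProperty C)

/-- A Schur class: it is closed under shifts, and a nonzero morphism between two of its objects is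
an isomorphism. -/
structure IsSchur : Prop where
  shift (X : C) (n : ℤ) : P X → P (X⟦n⟧)
  schur {X Y : C} (f : X ⟶ Y) : P X → P Y → f ≠ 0 → IsIso f

/-- Direct sums of `n` objects of the class. -/
def FS : ℕ → C → Prop
  | 0, Z => IsZero Z
  | n + 1, Z => ∃ S W : C, P S ∧ FS n W ∧ Nonempty (Spl S Z W)

variable {P}

lemma FS.iso {n : ℕ} {Z Z' : C} (h : FS P n Z) (e : Z ≅ Z') : FS P n Z' := by
  cases n with
  | zero => exact h.of_iso e.symm
  | succ n =>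
    obtain ⟨S, W, hS, hW, ⟨s⟩⟩ := h
    exact ⟨S, W, hS, hW, ⟨s.iso e⟩⟩

lemma FS.shift (hP : IsSchur P) {n : ℕ} : ∀ {Z : C}, FS P n Z → ∀ k : ℤ, FS P n (Z⟦k⟧) := by
  induction n with
  | zero => intro Z h k; exact (shiftFunctor C k).map_isZero h
  | succ n ih =>
    intro Z h k
    obtain ⟨S, W, hS, hW, ⟨s⟩⟩ := h
    exact ⟨_, _, hP.shift S k hS, ih hW k, ⟨s.map (shiftFunctor C k)⟩⟩

lemma FS.of_shift (hP : IsSchur P) {n : ℕ} {Z : C} (k : ℤ) (h : FS P n (Z⟦k⟧)) : FS P n Z :=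
  (h.shift hP (-k)).iso ((shiftEquiv C k).unitIso.app Z).symm

lemma FS.of_simple {S : C} (hS : P S) : FS P 1 S := by
  obtain ⟨O, hO⟩ := HasZeroObject.zero (C := C)
  exact ⟨S, O, hS, hO, ⟨⟨𝟙 _, 𝟙 _, 0, 0, by simp, hO.eq_of_src _ _, by simp, by simp,
    by simp⟩⟩⟩

lemma FS.split (hP : IsSchur P) {n : ℕ} : ∀ {Z : C}, FS P n Z → ∀ {S : C} (u : S ⟶ Z), P S →
    u ≠ 0 → ∃ ρ : Z ⟶ S, u ≫ ρ = 𝟙 S := by
  induction n with
  | zero => intro Z h S u _ hu; exact absurd (IsZero.eq_of_tgt h u 0) hu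
  | succ n ih =>
    intro Z h S u hS hu
    obtain ⟨S', W, hS', hW, ⟨s⟩⟩ := h
    by_cases h1 : u ≫ s.p = 0
    · have h2 : u ≫ s.q ≠ 0 := by
        intro h3
        apply hu
        rw [s.fac u h1, h3, zero_comp]
      obtain ⟨ρ, hρ⟩ := ih hW (u ≫ s.q) hS h2
      exact ⟨s.q ≫ ρ, by rw [← Category.assoc]; exact hρ⟩
    · have h2 := hP.schur _ hS hS' h1
      exact ⟨s.p ≫ inv (u ≫ s.p), by rw [← Category.assoc, IsIso.hom_inv_id]⟩

lemma FS.cone_ne [IsTriangulated C] (hP : IsSchur P) {n : ℕ} : ∀ {Z : C}, FS P n Z →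
    ∀ {S Y : C} {u : S ⟶ Z} {g : Z ⟶ Y} {h : Y ⟶ S⟦(1 : ℤ)⟧}, P S →
    Triangle.mk u g h ∈ distTriang C → u ≠ 0 → ∃ m, m + 1 = n ∧ FS P m Y := by
  induction n with
  | zero => intro Z hZ S Y u g h _ _ hu; exact absurd (IsZero.eq_of_tgt hZ u 0) hu
  | succ n ih =>
    intro Z hZ S Y u g h hS hT hu
    obtain ⟨S', W, hS', hW, ⟨s⟩⟩ := hZ
    by_cases h1 : u ≫ s.p = 0
    · have h2 : u ≫ s.q ≠ 0 := by
        intro h3
        apply hu
        rw [s.fac u h1, h3, zero_comp]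
      obtain ⟨Y', gv, hv, hTv⟩ := distinguished_cocone_triangle (u ≫ s.q)
      obtain ⟨m, hm, hY'⟩ := ih hW hS hTv h2
      have h3 : (u ≫ s.q) ≫ s.j = u := (s.fac u h1).symm
      have hj : Triangle.mk s.j s.p (0 : S' ⟶ W⟦(1 : ℤ)⟧) ∈ distTriang C := s.symm.dist
      have O := someOctahedron h3 hTv hj hT
      obtain ⟨s', _, _⟩ := spl_of_dist O.mem (by rw [zero_comp])
      exact ⟨m + 1, by omega, S', Y', hS', hY', ⟨s'.symm⟩⟩
    · have h2 := hP.schur _ hS hS' h1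
      have h3 := (s.change u).dist
      obtain ⟨e, _⟩ := cone_iso h3 hT
      exact ⟨n, rfl, hW.iso e⟩

lemma FS.cone [IsTriangulated C] (hP : IsSchur P) {n : ℕ} {Z : C} (hZ : FS P n Z)
    {S Y : C} {u : S ⟶ Z} {g : Z ⟶ Y} {h : Y ⟶ S⟦(1 : ℤ)⟧} (hS : P S)
    (hT : Triangle.mk u g h ∈ distTriang C) : ∃ m, FS P m Y := by
  by_cases hu : u = 0
  · obtain ⟨s, _, _⟩ := spl_of_dist (rotD hT) (by rw [hu, Functor.map_zero, neg_zero])
    exact ⟨n + 1, _, _, hP.shift S 1 hS, hZ, ⟨s.symm⟩⟩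
  · obtain ⟨m, _, hm⟩ := FS.cone_ne hP hZ hS hT hu
    exact ⟨m, hm⟩

lemma FS.ext1 [IsTriangulated C] (hP : IsSchur P) {n : ℕ} {A : C} (hA : FS P n A)
    {S Y : C} {f : A ⟶ Y} {g : Y ⟶ S} {h : S ⟶ A⟦(1 : ℤ)⟧} (hS : P S)
    (hT : Triangle.mk f g h ∈ distTriang C) : ∃ m, FS P m Y := by
  obtain ⟨m, hm⟩ := FS.cone hP (hA.shift hP 1) hS (rotD (rotD hT))
  exact ⟨m, hm.of_shift hP 1⟩

lemma FS.ext [IsTriangulated C] (hP : IsSchur P) {n : ℕ} : ∀ {B : C}, FS P n B →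
    ∀ {m : ℕ} {A Y : C} {f : A ⟶ Y} {g : Y ⟶ B} {h : B ⟶ A⟦(1 : ℤ)⟧}, FS P m A →
    Triangle.mk f g h ∈ distTriang C → ∃ k, FS P k Y := by
  induction n with
  | zero =>
    intro B hB m A Y f g h hA hT
    have h1 := isIso1_of_isZero3 hT hB
    exact ⟨m, hA.iso (asIso f)⟩
  | succ n ih =>
    intro B hB m A Y f g h hA hT
    obtain ⟨S, W, hS, hW, ⟨s⟩⟩ := hB
    obtain ⟨Y', a, b, hT'⟩ := distinguished_cocone_triangle₁ (g ≫ s.q)
    have O := someOctahedron (rfl : g ≫ s.q = g ≫ s.q) (rotD hT) (rotD s.dist) (rotD hT')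
    obtain ⟨k, hk⟩ := FS.ext1 hP (hA.shift hP 1) (hP.shift S 1 hS) O.mem
    exact ih hW (hk.of_shift hP 1) hT'

lemma FS.retract [IsTriangulated C] (hP : IsSchur P) {n : ℕ} : ∀ {W : C}, FS P n W →
    ∀ {Z : C} (i : Z ⟶ W) (r : W ⟶ Z), i ≫ r = 𝟙 Z → ∃ m, FS P m Z := by
  induction n with
  | zero =>
    intro W hW Z i r hir
    refine ⟨0, ?_⟩
    change IsZero Z
    rw [IsZero.iff_id_eq_zero, ← hir, IsZero.eq_of_tgt hW i 0, zero_comp]
  | succ n ih =>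
    intro W hW Z i r hir
    have hW0 := hW
    obtain ⟨S, W', hS, hW', ⟨s⟩⟩ := hW
    by_cases hβ : s.i ≫ r = 0
    · have h1 := s.fac' r hβ
      refine ih hW' (i ≫ s.q) (s.j ≫ r) ?_
      rw [Category.assoc, ← h1, hir]
    · have h1 : (s.i ≫ r) ≫ i ≠ 0 := by
        intro h2
        apply hβ
        rw [← Category.comp_id (s.i ≫ r), ← hir, ← Category.assoc, h2, zero_comp]
      obtain ⟨ρ, hρ⟩ := FS.split hP hW0 ((s.i ≫ r) ≫ i) hS h1
      obtain ⟨W1, g, h, hT⟩ := distinguished_cocone_triangle ((s.i ≫ r) ≫ i)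
      obtain ⟨m, hm, hW1⟩ := FS.cone_ne hP hW0 hS hT h1
      obtain rfl : m = n := by omega
      obtain ⟨Z1, g', h', hT'⟩ := distinguished_cocone_triangle (s.i ≫ r)
      have hh' : h' = 0 := by
        have h2 := comp31 hT'
        have h3 : (s.i ≫ r)⟦(1 : ℤ)⟧' ≫ (i ≫ ρ)⟦(1 : ℤ)⟧' = 𝟙 _ := by
          rw [← Functor.map_comp, ← Category.assoc, hρ, CategoryTheory.Functor.map_id]
        rw [← Category.comp_id h', ← h3, ← Category.assoc, h2, zero_comp]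
      obtain ⟨c, hc1'⟩ : ∃ c : Z1 ⟶ W1, g' ≫ c = i ≫ g := by
        obtain ⟨c, hc1, hc2⟩ := complete_distinguished_triangle_morphism _ _ hT' hT (𝟙 S) i
          (by simp)
        exact ⟨c, hc1⟩
      obtain ⟨d, hd1'⟩ : ∃ d : W1 ⟶ Z1, g ≫ d = r ≫ g' := by
        obtain ⟨d, hd1, hd2⟩ := complete_distinguished_triangle_morphism _ _ hT hT' (𝟙 S) r
          (by simp [hir])
        exact ⟨d, hd1⟩
      have h4 : IsIso (c ≫ d) := by
        obtain ⟨t, ht⟩ := split3' hT' hh'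
        have h5 : g' ≫ (c ≫ d) = g' := by
          rw [← Category.assoc, hc1', Category.assoc, hd1', ← Category.assoc, hir,
            Category.id_comp]
        have h6 : c ≫ d = 𝟙 _ := by
          rw [← Category.id_comp (c ≫ d), ← ht, Category.assoc, h5]
        rw [h6]
        infer_instance
      obtain ⟨k, hk⟩ := ih hW1 c (d ≫ inv (c ≫ d)) (by rw [← Category.assoc, IsIso.hom_inv_id])
      obtain ⟨s', _, _⟩ := spl_of_dist hT' hh'
      exact ⟨k + 1, S, Z1, hS, hk, ⟨s'⟩⟩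

/-- Every morphism between direct sums is von Neumann regular. -/
lemma FS.regular (hP : IsSchur P) {n m : ℕ} {W' : C} (hW' : FS P m W') : ∀ {W : C}, FS P n W →
    ∀ f : W ⟶ W', ∃ g : W' ⟶ W, f ≫ g ≫ f = f := by
  induction n with
  | zero => intro W hW f; exact ⟨0, IsZero.eq_of_src hW _ _⟩
  | succ n ih =>
    intro W hW f
    obtain ⟨S, W1, hS, hW1, ⟨s⟩⟩ := hW
    have key : ∀ a : W ⟶ W', s.i ≫ a = 0 → ∃ g : W' ⟶ W, a ≫ g ≫ a = a := by
      intro a ha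
      obtain ⟨g, hg⟩ := ih hW1 (s.j ≫ a)
      have h1 := s.fac' a ha
      refine ⟨g ≫ s.j, ?_⟩
      calc a ≫ (g ≫ s.j) ≫ a = (s.q ≫ (s.j ≫ a)) ≫ (g ≫ s.j) ≫ a := by rw [← h1]
        _ = s.q ≫ ((s.j ≫ a) ≫ g ≫ (s.j ≫ a)) := by simp only [Category.assoc]
        _ = a := by rw [hg, ← h1]
    by_cases h1 : s.i ≫ f = 0
    · exact key f h1
    · obtain ⟨ρ, hρ⟩ := FS.split hP hW' (s.i ≫ f) hS h1
      have h2 : s.i ≫ (f - f ≫ ρ ≫ s.i ≫ f) = 0 := by
        rw [Preadditive.comp_sub, ← Category.assoc, ← Category.assoc _ ρ, hρ, Category.id_comp,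
          sub_self]
      obtain ⟨g, hg⟩ := key _ h2
      refine ⟨ρ ≫ s.i + (𝟙 _ - ρ ≫ s.i ≫ f) ≫ g ≫ (𝟙 _ - f ≫ ρ ≫ s.i), ?_⟩
      have h3 : f ≫ (ρ ≫ s.i + (𝟙 _ - ρ ≫ s.i ≫ f) ≫ g ≫ (𝟙 _ - f ≫ ρ ≫ s.i)) ≫ f =
          f ≫ ρ ≫ s.i ≫ f + (f - f ≫ ρ ≫ s.i ≫ f) ≫ g ≫ (f - f ≫ ρ ≫ s.i ≫ f) := by
        simp only [Preadditive.add_comp, Preadditive.comp_add, Preadditive.sub_comp,
          Preadditive.comp_sub, Category.assoc, Category.id_comp, Category.comp_id]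
      rw [h3, hg]
      abel

end

end Run7.h478.FF
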