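import Pool.Agent.Run7.h478.FF.Defs
import Pool.Agent.Run7.h478.FF.Schur
import Pool.Agent.Run7.h822.MT.Exist

/-!
# Polynomials in the Frobenius
-/

set_option autoImplicit false
set_option linter.unusedSectionVars false
set_option linter.unusedSimpArgs false
set_option backward.isDefEq.respectTransparency false
set_option backward.defeqAttrib.useBackward true

open CategoryTheory Limits MonoidalCategory Pretriangulated Triangulated

namespace Run7.h478.FF

open Pool.Agent.Y116.MT Run7.h822.MT Pool.Agent.V1178.MT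

universe v u w

section

variable {C : Type u} [Category.{v} C] [Preadditive C] [Linear ℚ C]

lemma ev_one {X : C} (φ : X ⟶ X) : ev φ 1 = 𝟙 X :=
  map_one (Polynomial.aeval (R := ℚ) (A := End X) φ)

lemma ev_zero {X : C} (φ : X ⟶ X) : ev φ 0 = 0 :=
  map_zero (Polynomial.aeval (R := ℚ) (A := End X) φ)

lemma ev_add {X : C} (φ : X ⟶ X) (p q : Polynomial ℚ) : ev φ (p + q) = ev φ p + ev φ q :=
  map_add (Polynomial.aeval (R := ℚ) (A := End X) φ) p q

lemma ev_sub {X : C} (φ : X ⟶ X) (p q : Polynomial ℚ) : ev φ (p - q) = ev φ p - ev φ q :=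
  map_sub (Polynomial.aeval (R := ℚ) (A := End X) φ) p q

lemma ev_mul {X : C} (φ : X ⟶ X) (p q : Polynomial ℚ) : ev φ (p * q) = ev φ p ≫ ev φ q := by
  rw [mul_comm]
  simp only [ev, map_mul]
  rfl

lemma ev_comm {X : C} (φ : X ⟶ X) (p q : Polynomial ℚ) : ev φ p ≫ ev φ q = ev φ q ≫ ev φ p := by
  rw [← ev_mul, mul_comm, ev_mul]

lemma ev_C {X : C} (φ : X ⟶ X) (a : ℚ) : ev φ (Polynomial.C a) = a • 𝟙 X := by
  simp only [ev, Polynomial.aeval_C]
  rw [Algebra.algebraMap_eq_smul_one]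
  rfl

lemma ev_X {X : C} (φ : X ⟶ X) : ev φ Polynomial.X = φ := by
  simp only [ev, Polynomial.aeval_X]

/-- Polynomials in compatible endomorphisms are compatible. -/
lemma ev_natural {X Y : C} {φ : X ⟶ X} {ψ : Y ⟶ Y} {f : X ⟶ Y} (h : φ ≫ f = f ≫ ψ)
    (p : Polynomial ℚ) : ev φ p ≫ f = f ≫ ev ψ p := by
  induction p using Polynomial.induction_on with
  | C a =>
    rw [ev_C, ev_C, Linear.smul_comp, Linear.comp_smul, Category.id_comp, Category.comp_id]
  | add p q hp hq => rw [ev_add, ev_add, Preadditive.add_comp, Preadditive.comp_add, hp, hq]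
  | monomial n a hn =>
    rw [pow_succ, ← mul_assoc, ev_mul φ (Polynomial.C a * Polynomial.X ^ n) Polynomial.X,
      ev_mul ψ (Polynomial.C a * Polynomial.X ^ n) Polynomial.X, ev_X, ev_X, Category.assoc, h,
      ← Category.assoc, hn, Category.assoc]

lemma ev_id (X : C) (p : Polynomial ℚ) : ev (𝟙 X) p = (p.eval 1) • 𝟙 X := by
  induction p using Polynomial.induction_on with
  | C a => rw [ev_C, Polynomial.eval_C]
  | add p q hp hq => rw [ev_add, hp, hq, Polynomial.eval_add, add_smul]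
  | monomial n a hn =>
    rw [pow_succ, ← mul_assoc, ev_mul _ (Polynomial.C a * Polynomial.X ^ n) Polynomial.X, ev_X,
      Category.comp_id, hn, Polynomial.eval_mul (p := Polynomial.C a * Polynomial.X ^ n),
      Polynomial.eval_X, mul_one]

end

section

variable {C : Type u} [Category.{v} C] [Preadditive C] [HasZeroObject C] [HasShift C ℤ]
  [∀ n : ℤ, (shiftFunctor C n).Additive] [Pretriangulated C] [MonoidalCategory C]
  [SymmetricCategory C] [TensorTriangulated C] [RightRigidCategory C] [Linear ℚ C]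
  {Q : ObjectProperty C} {F : ∀ X : C, X ⟶ X} {Λ : Type*}
  {E : Λ → Type w} [∀ l, Field (E l)] {R : ∀ l, Realisation C (E l)}

lemma map_ratsmul {D : Type*} [Category D] [Preadditive D] [Linear ℚ D] (G : C ⥤ D) [G.Additive]
    {X Y : C} (q : ℚ) (f : X ⟶ Y) : G.map (q • f) = q • G.map f :=
  map_rat_smul (G.mapAddHom (X := X) (Y := Y)) q f

variable (hM : FiniteFieldMotives Q F R)

include hM

lemma frob_ev {X Y : C} (f : X ⟶ Y) (p : Polynomial ℚ) : ev (F X) p ≫ f = f ≫ ev (F Y) p :=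
  ev_natural (hM.natural f) p

lemma frob_unit_shift (n : ℤ) : F ((𝟙_ C)⟦n⟧) = 𝟙 _ := by
  rw [hM.frob_shift, hM.frob_unit, CategoryTheory.Functor.map_id]

/-- The Frobenius acts trivially on morphisms from shifts of the unit. -/
lemma unit_ev {Y : C} {n : ℤ} (x : (𝟙_ C)⟦n⟧ ⟶ Y) (p : Polynomial ℚ) :
    x ≫ ev (F Y) p = (p.eval 1) • x := by
  rw [← frob_ev hM, frob_unit_shift hM, ev_id, Linear.smul_comp, Category.id_comp]

lemma unit_ev0 {Y : C} (x : 𝟙_ C ⟶ Y) (p : Polynomial ℚ) :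
    x ≫ ev (F Y) p = (p.eval 1) • x := by
  rw [← frob_ev hM, hM.frob_unit, ev_id, Linear.smul_comp, Category.id_comp]

lemma eq_zero_of_ev {Y : C} {n : ℤ} (x : (𝟙_ C)⟦n⟧ ⟶ Y) (p : Polynomial ℚ) (hp : p.eval 1 ≠ 0)
    (h : x ≫ ev (F Y) p = 0) : x = 0 := by
  rw [unit_ev hM] at h
  exact (smul_eq_zero.1 h).resolve_left hp

omit hM in
/-- Transport of a polynomial relation along a map which is injective on the cohomology. -/
lemma H_ev_mono {l : Λ} {X Y : C} (hM : FiniteFieldMotives Q F R) (f : X ⟶ Y) (i : ℤ)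
    (hf : Mono ((R l).H.map (f⟦i⟧'))) (p : Polynomial ℚ)
    (h : (R l).H.map ((ev (F Y) p)⟦i⟧') = 0) : (R l).H.map ((ev (F X) p)⟦i⟧') = 0 := by
  rw [← cancel_mono ((R l).H.map (f⟦i⟧')), ← Functor.map_comp, ← Functor.map_comp, frob_ev hM,
    Functor.map_comp, Functor.map_comp, h, comp_zero, zero_comp]

omit hM in
lemma H_ev_epi {l : Λ} {X Y : C} (hM : FiniteFieldMotives Q F R) (f : X ⟶ Y) (i : ℤ)
    (hf : Epi ((R l).H.map (f⟦i⟧'))) (p : Polynomial ℚ)
    (h : (R l).H.map ((ev (F X) p)⟦i⟧') = 0) : (R l).H.map ((ev (F Y) p)⟦i⟧') = 0 := by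
  rw [← cancel_epi ((R l).H.map (f⟦i⟧')), ← Functor.map_comp, ← Functor.map_comp, ← frob_ev hM,
    Functor.map_comp, Functor.map_comp, h, comp_zero, zero_comp]

/-- A multiple of a polynomial which annihilates the Frobenius. -/
lemma H_ev_dvd {l : Λ} {X : C} {i : ℤ} {p q : Polynomial ℚ} (hpq : p ∣ q)
    (h : (R l).H.map ((ev (F X) p)⟦i⟧') = 0) : (R l).H.map ((ev (F X) q)⟦i⟧') = 0 := by
  obtain ⟨r, rfl⟩ := hpq
  rw [ev_mul, Functor.map_comp, Functor.map_comp, h, zero_comp]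

/-- Idempotents of the unit. -/
lemma unit_idem (h1 : ¬ IsZero (𝟙_ C)) (e : 𝟙_ C ⟶ 𝟙_ C) (he : e ≫ e = e) :
    e = 0 ∨ e = 𝟙 _ := by
  obtain ⟨q, rfl⟩ := hM.scalars e
  rw [Linear.smul_comp, Linear.comp_smul, Category.id_comp, smul_smul] at he
  have h2 : (𝟙 (𝟙_ C)) ≠ 0 := fun h => h1 ((IsZero.iff_id_eq_zero _).2 h)
  have h3 : (q * q - q) • 𝟙 (𝟙_ C) = 0 := by rw [sub_smul, he, sub_self]
  have h4 : q * q - q = 0 := (smul_eq_zero.1 h3).resolve_right h2
  have h5 : q * (q - 1) = 0 := by linarith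
  rcases mul_eq_zero.1 h5 with h6 | h6
  · left
    rw [h6, zero_smul]
  · right
    rw [sub_eq_zero.1 h6, one_smul]

/-- A scalar which acts as zero on the cohomology is zero. -/
lemma scalar_zero [∀ l, CharZero (E l)] (l : Λ) (f : 𝟙_ C ⟶ 𝟙_ C) (h : (R l).H.map f = 0) :
    f = 0 := by
  obtain ⟨q, rfl⟩ := hM.scalars f
  have h1 : (q.den : ℤ) • (q • 𝟙 (𝟙_ C)) = q.num • 𝟙 (𝟙_ C) := by
    rw [← Int.cast_smul_eq_zsmul ℚ, smul_smul, ← Int.cast_smul_eq_zsmul ℚ q.num]
    congr 1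
    push_cast
    rw [mul_comm]
    exact Rat.mul_den_eq_num q
  have h2 : q.num • 𝟙 ((R l).H.obj (𝟙_ C)) = 0 := by
    rw [← CategoryTheory.Functor.map_id, ← Functor.map_zsmul, ← h1, Functor.map_zsmul, h,
      smul_zero]
  by_cases hq : q.num = 0
  · rw [Rat.num_eq_zero.1 hq, zero_smul]
  · exfalso
    apply not_isZero_H_unit (R l)
    rw [ModuleCat.isZero_iff_subsingleton]
    constructor
    intro a b
    have h3 : ∀ x : (R l).H.obj (𝟙_ C), x = 0 := by
      intro x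
      have h4 := LinearMap.congr_fun (congrArg ModuleCat.Hom.hom h2) x
      have h5 : (q.num : ℤ) • x = 0 := h4
      rw [← Int.cast_smul_eq_zsmul (E l)] at h5
      exact (smul_eq_zero.1 h5).resolve_left (by exact_mod_cast hq)
    rw [h3 a, h3 b]

end

end Run7.h478.FF
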