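import Pool.Agent.Run7.h478.FF.Indec

/-!
# All motives over a finite field are sums of shifts of indecomposable pure motives, if rational
and numerical equivalence agree and Parshin's conjecture holds
-/

set_option autoImplicit false
set_option linter.unusedSectionVars false
set_option linter.unusedSimpArgs false
set_option backward.isDefEq.respectTransparency false
set_option backward.defeqAttrib.useBackward true

open CategoryTheory Limits MonoidalCategory Pretriangulated Triangulated

namespace Run7.h478.FF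

open Pool.Agent.Y116.MT Run7.h822.MT Pool.Agent.V1178.MT

universe v u w

open Functor.LaxMonoidal

section

variable {C : Type u} [Category.{v} C] [Preadditive C] [HasZeroObject C] [HasShift C ℤ]
  [∀ n : ℤ, (shiftFunctor C n).Additive] [Pretriangulated C] [MonoidalCategory C]
  [SymmetricCategory C] [TensorTriangulated C] [RightRigidCategory C] [Linear ℚ C]
  [MonoidalPreadditive C]
  {Q : ObjectProperty C} {F : ∀ X : C, X ⟶ X} {Λ : Type*} [Nonempty Λ]
  {E : Λ → Type w} [∀ l, Field (E l)] [∀ l, CharZero (E l)] {R : ∀ l, Realisation C (E l)}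

lemma Indec.shift_idem {S : C} (hS : Indec Q S) (d : ℤ) (e : S⟦d⟧ ⟶ S⟦d⟧) (he : e ≫ e = e) :
    e = 0 ∨ e = 𝟙 _ := by
  obtain ⟨e', rfl⟩ := (shiftFunctor C d).map_surjective e
  have h1 : e' ≫ e' = e' := (shiftFunctor C d).map_injective (by rw [Functor.map_comp, he])
  rcases hS.idem e' h1 with h | h
  · left
    rw [h, Functor.map_zero]
  · right
    rw [h, CategoryTheory.Functor.map_id]

/-- Shifts of nonzero indecomposable pure motives. -/
def Simp (Q : ObjectProperty C) : ObjectProperty C := fun Z =>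
  ∃ (S : C) (n : ℤ), Indec Q S ∧ Nonempty (Z ≅ S⟦n⟧)

variable (hM : FiniteFieldMotives Q F R) (hN : RatEqNum Q)

include hM hN

/-- Schur's lemma for pure motives. -/
lemma schur_pure {S S' : C} (hS : Indec Q S) (hS' : Indec Q S') (f : S ⟶ S') (hf : f ≠ 0) :
    IsIso f := by
  obtain ⟨l⟩ := ‹Nonempty Λ›
  have : Nonempty Λ := ⟨l⟩
  obtain ⟨d, hd⟩ := hS.pure hM hN
  obtain ⟨d', hd'⟩ := hS'.pure hM hN
  have hdd : d = d' := by
    by_contra hne
    apply hf
    apply eq_zero_of_H hM hN l hS.ret hS'.ret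
    intro i
    by_cases hi : i = d
    · exact ((hd' l).1 i (by omega)).eq_of_tgt _ _
    · exact ((hd l).1 i hi).eq_of_src _ _
  subst hdd
  have hf1 : f⟦d⟧' ≠ 0 := by
    intro h
    apply hf
    apply (shiftFunctor C d).map_injective
    rw [h, Functor.map_zero]
  obtain ⟨g, hg⟩ := trace_nondeg hM hN hS.ret hS'.ret d (f⟦d⟧') hf1
  have hdeg : (R l).Deg (S⟦d⟧) 0 := by
    intro i hi
    exact ((hd l).1 (d + i) (by omega)).of_iso
      ((R l).H.mapIso ((shiftFunctorAdd C d i).app S).symm)
  have hx : f⟦d⟧' ≫ g ≠ 0 := by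
    intro h
    rw [h, tr_zero] at hg
    exact hg rfl
  obtain ⟨b, hb⟩ := regular_end hM l hdeg
    (fun a ha => trace_nondeg hM hN hS.ret hS.ret d a ha) (f⟦d⟧' ≫ g)
  have h1 : (f⟦d⟧' ≫ g) ≫ b = 𝟙 _ := by
    rcases hS.shift_idem d ((f⟦d⟧' ≫ g) ≫ b) (by
      have := congrArg (fun x => x ≫ b) hb
      simpa only [Category.assoc] using this) with h | h
    · exfalso
      apply hx
      rw [← hb, ← Category.assoc, h, zero_comp]
    · exact h
  have h2 : (g ≫ b) ≫ f⟦d⟧' = 𝟙 _ := by
    have h3 : f⟦d⟧' ≫ (g ≫ b) = 𝟙 _ := by simpa only [Category.assoc] using h1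
    rcases hS'.shift_idem d ((g ≫ b) ≫ f⟦d⟧') (by
      rw [Category.assoc, ← Category.assoc (f⟦d⟧') (g ≫ b), h3, Category.id_comp]) with h | h
    · exfalso
      apply hf1
      rw [← Category.id_comp (f⟦d⟧'), ← h3, Category.assoc, h, comp_zero]
    · exact h
  have h4 : IsIso (f⟦d⟧') := ⟨g ≫ b, by simpa only [Category.assoc] using h1, h2⟩
  exact isIso_of_reflects_iso f (shiftFunctor C d)

/-- The shifts of indecomposable pure motives form a Schur class. -/
lemma isSchur_simp (hP : Parshin Q) : IsSchur (Simp Q) where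
  shift X n hX := by
    obtain ⟨S, m, hS, ⟨e⟩⟩ := hX
    exact ⟨S, m + n, hS, ⟨(shiftFunctor C n).mapIso e ≪≫ ((shiftFunctorAdd C m n).app S).symm⟩⟩
  schur {X Y} f hX hY hf := by
    obtain ⟨S, m, hS, ⟨e⟩⟩ := hX
    obtain ⟨S', m', hS', ⟨e'⟩⟩ := hY
    have h1 : e.inv ≫ f ≫ e'.hom ≠ 0 := by
      intro h
      apply hf
      rw [← cancel_mono e'.hom, ← cancel_epi e.inv, h, zero_comp, comp_zero]
    have h2 : IsIso (e.inv ≫ f ≫ e'.hom) := by
      by_cases hmm : m = m'
      · subst hmm
        obtain ⟨g, hg⟩ := (shiftFunctor C m).map_surjective (e.inv ≫ f ≫ e'.hom)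
        have h3 : g ≠ 0 := by
          intro h
          apply h1
          rw [← hg, h, Functor.map_zero]
        have h4 := schur_pure hM hN hS hS' g h3
        rw [← hg]
        infer_instance
      · exfalso
        apply h1
        apply (shiftFunctor C (-m')).map_injective
        rw [Functor.map_zero,
          ← cancel_mono ((shiftFunctorCompIsoId C m' (-m') (by omega)).hom.app S'),
          ← cancel_epi ((shiftFunctorAdd' C m (-m') (m - m') (by omega)).hom.app S)]
        rw [hom_shift hM hP hS.ret hS'.ret (n := m - m') (by omega)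
          ((shiftFunctorAdd' C m (-m') (m - m') (by omega)).hom.app S ≫ _)]
        simp
    have h5 : f = e.hom ≫ (e.inv ≫ f ≫ e'.hom) ≫ e'.inv := by simp
    rw [h5]
    infer_instance

end

section

variable {C : Type u} [Category.{v} C] [Preadditive C] [HasZeroObject C] [HasShift C ℤ]
  [∀ n : ℤ, (shiftFunctor C n).Additive] [Pretriangulated C] [MonoidalCategory C]
  [SymmetricCategory C] [TensorTriangulated C] {E : Type w} [Field E] (R : Realisation C E)

lemma bet_spl {S Z W : C} (s : Spl S Z W) (i : ℤ) : bet R S i + bet R W i ≤ bet R Z i := by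
  have s' := (s.map (shiftFunctor C i)).map R.H
  have h1 : bet R S i + bet R W i = Module.finrank E
      ((R.H.obj (S⟦i⟧)) × (R.H.obj (W⟦i⟧))) := (Module.finrank_prod).symm
  rw [h1]
  refine LinearMap.finrank_le_finrank_of_injective
    (f := LinearMap.coprod s'.i.hom s'.j.hom) ?_
  rw [injective_iff_map_eq_zero]
  rintro ⟨a, b⟩ hab
  rw [LinearMap.coprod_apply] at hab
  have e1 : ∀ x, s'.p.hom (s'.i.hom x) = x := fun x =>
    LinearMap.congr_fun (congrArg ModuleCat.Hom.hom s'.ip) x
  have e2 : ∀ x, s'.q.hom (s'.j.hom x) = x := fun x =>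
    LinearMap.congr_fun (congrArg ModuleCat.Hom.hom s'.jq) x
  have e3 : ∀ x, s'.p.hom (s'.j.hom x) = 0 := fun x =>
    LinearMap.congr_fun (congrArg ModuleCat.Hom.hom s'.jp) x
  have e4 : ∀ x, s'.q.hom (s'.i.hom x) = 0 := fun x =>
    LinearMap.congr_fun (congrArg ModuleCat.Hom.hom s'.iq) x
  have h2 := congrArg s'.p.hom hab
  have h3 := congrArg s'.q.hom hab
  rw [map_add, map_zero, e1, e3, add_zero] at h2
  rw [map_add, map_zero, e4, e2, zero_add] at h3
  exact Prod.ext h2 h3

end

section

variable {C : Type u} [Category.{v} C] [Preadditive C] [HasZeroObject C] [HasShift C ℤ]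
  [∀ n : ℤ, (shiftFunctor C n).Additive] [Pretriangulated C] [IsTriangulated C]
  [MonoidalCategory C]
  [SymmetricCategory C] [TensorTriangulated C] [RightRigidCategory C] [Linear ℚ C]
  [MonoidalPreadditive C] [IsIdempotentComplete C]
  {Q : ObjectProperty C} {F : ∀ X : C, X ⟶ X} {Λ : Type*} [Nonempty Λ]
  {E : Λ → Type w} [∀ l, Field (E l)] [∀ l, CharZero (E l)] {R : ∀ l, Realisation C (E l)}
  (hM : FiniteFieldMotives Q F R) (hN : RatEqNum Q)

/-- The splitting of an idempotent. -/
lemma spl_of_idem {Z : C} (e : Z ⟶ Z) (he : e ≫ e = e) :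
    ∃ (S W : C) (s : Spl S Z W), s.p ≫ s.i = e := by
  obtain ⟨S, i, p, hip, hpi⟩ := IsIdempotentComplete.idempotents_split Z e he
  have he' : (𝟙 Z - e) ≫ (𝟙 Z - e) = 𝟙 Z - e := by
    rw [Preadditive.sub_comp, Preadditive.comp_sub, Preadditive.comp_sub, he]
    simp
  obtain ⟨W, j, q, hjq, hqj⟩ := IsIdempotentComplete.idempotents_split Z _ he'
  have h1 : i ≫ e = i := by rw [← hpi, ← Category.assoc, hip, Category.id_comp]
  have h2 : e ≫ p = p := by rw [← hpi, Category.assoc, hip, Category.comp_id]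
  have h3 : i ≫ q = 0 := by
    have : (i ≫ q) ≫ j = 0 := by
      rw [Category.assoc, hqj, Preadditive.comp_sub, Category.comp_id, h1, sub_self]
    rw [← Category.comp_id (i ≫ q), ← hjq, ← Category.assoc, this, zero_comp]
  have h4 : j ≫ p = 0 := by
    have : q ≫ (j ≫ p) = 0 := by
      rw [← Category.assoc, hqj, Preadditive.sub_comp, Category.id_comp, h2, sub_self]
    rw [← Category.id_comp (j ≫ p), ← hjq, Category.assoc, this, comp_zero]
  exact ⟨S, W, ⟨i, p, j, q, hip, hjq, h3, h4, by rw [hpi, hqj]; abel⟩, hpi⟩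

include hM hN

/-- Every pure motive is a direct sum of indecomposable ones. -/
lemma fs_ret (hP : Parshin Q) (l : Λ) (N : ℕ) : ∀ (n : ℕ) (Z : C), Ret Q Z →
    (∀ i : ℤ, N < i.natAbs → bet (R l) Z i = 0) → tot (R l) Z N ≤ n →
      ∃ k, FS (Simp Q) k Z := by
  intro n
  induction n using Nat.strong_induction_on with
  | _ n ih =>
    intro Z hZ hb hn
    by_cases hz : IsZero Z
    · exact ⟨0, hz⟩
    by_cases hI : ∀ e : Z ⟶ Z, e ≫ e = e → e = 0 ∨ e = 𝟙 Z
    · exact ⟨1, FS.of_simple ⟨Z, 0, ⟨hZ, hz, hI⟩, ⟨((shiftFunctorZero C ℤ).app Z).symm⟩⟩⟩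
    · push Not at hI
      obtain ⟨e, he, he0, he1⟩ := hI
      obtain ⟨S, W, s, hs⟩ := spl_of_idem e he
      have hS : Ret Q S := hZ.trans s.i s.p s.ip
      have hW : Ret Q W := hZ.trans s.j s.q s.jq
      have hS0 : ¬ IsZero S := by
        intro h
        apply he0
        rw [← hs, h.eq_of_tgt s.p 0, zero_comp]
      have hW0 : ¬ IsZero W := by
        intro h
        apply he1
        rw [← hs, ← s.tot, h.eq_of_tgt s.q 0, zero_comp, add_zero]
      have hpos : ∀ V : C, Ret Q V → ¬ IsZero V →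
          (∀ i : ℤ, N < i.natAbs → bet (R l) V i = 0) → 0 < tot (R l) V N := by
        intro V hV hV0 hVb
        by_contra hcon
        apply hV0
        rw [IsZero.iff_id_eq_zero]
        apply eq_zero_of_H hM hN l hV hV
        intro i
        have h1 : bet (R l) V i = 0 := by
          by_cases hi : N < i.natAbs
          · exact hVb i hi
          · have h2 : tot (R l) V N = 0 := by omega
            rw [tot, Finset.sum_eq_zero_iff] at h2
            exact h2 i (by rw [Finset.mem_Icc]; omega)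
        exact ((bet_eq_zero_iff (R l) V i).1 h1).eq_of_src _ _
      have hSb : ∀ i : ℤ, N < i.natAbs → bet (R l) S i = 0 := fun i hi => by
        have := bet_spl (R l) s i
        have := hb i hi
        omega
      have hWb : ∀ i : ℤ, N < i.natAbs → bet (R l) W i = 0 := fun i hi => by
        have := bet_spl (R l) s i
        have := hb i hi
        omega
      have hsum : tot (R l) S N + tot (R l) W N ≤ tot (R l) Z N := by
        rw [tot, tot, tot, ← Finset.sum_add_distrib]
        exact Finset.sum_le_sum fun i _ => bet_spl (R l) s i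
      have hp1 := hpos S hS hS0 hSb
      have hp2 := hpos W hW hW0 hWb
      obtain ⟨k1, hk1⟩ := ih (tot (R l) S N) (by omega) S hS hSb le_rfl
      obtain ⟨k2, hk2⟩ := ih (tot (R l) W N) (by omega) W hW hWb le_rfl
      exact FS.ext (isSchur_simp hM hN hP) hk2 hk1 s.dist

/-- Every object is a direct sum of shifts of indecomposable pure motives. -/
theorem fs_all (hP : Parshin Q) (Z : C) : ∃ k, FS (Simp Q) k Z := by
  have hS := isSchur_simp hM hN hP
  refine hM.generates (fun Z => ∃ k, FS (Simp Q) k Z) ⟨?_, ?_, ?_, ?_⟩ ?_ Z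
  · intro X hX
    exact ⟨0, hX⟩
  · rintro X n ⟨k, hk⟩
    exact ⟨k, hk.shift hS n⟩
  · rintro X Y Z f g h hT ⟨k, hk⟩ ⟨k', hk'⟩
    exact FS.ext hS hk' hk hT
  · rintro X Y i r hir ⟨k, hk⟩
    exact FS.retract hS hk i r hir
  · intro X hX
    obtain ⟨l⟩ := ‹Nonempty Λ›
    have : Nonempty Λ := ⟨l⟩
    obtain ⟨N, hN'⟩ := bet_bounded (R l) X
    exact fs_ret hM hN hP l N _ X (Ret.of hX) hN' le_rfl

end

end Run7.h478.FF
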