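import Pool.Agent.Y116.MT.Defs
import Pool.Agent.Run7.h822.MT.Defs

/-!
# Constructible motives over a finite field: definitions
-/

set_option autoImplicit false

open CategoryTheory Limits MonoidalCategory Pretriangulated Triangulated

namespace Run7.h478.FF

open Pool.Agent.Y116.MT Run7.h822.MT

universe v u w

section

variable {C : Type u} [Category.{v} C] [Preadditive C] [HasZeroObject C] [HasShift C ℤ]
  [∀ n : ℤ, (shiftFunctor C n).Additive] [Pretriangulated C] [MonoidalCategory C]
  [SymmetricCategory C] [TensorTriangulated C] [RightRigidCategory C] [Linear ℚ C]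

/-- The value of a polynomial with rational coefficients at an endomorphism. -/
noncomputable def ev {X : C} (φ : X ⟶ X) (p : Polynomial ℚ) : X ⟶ X :=
  (Polynomial.aeval (R := ℚ) (A := End X) φ p : End X)

/-- The formal properties of the category `C` of constructible motives over a finite field: `Q` is
the class of the motives `M(X)(m)[2m]` with `X` smooth and projective, `F` is the Frobenius
endomorphism and `R l` are the realisations.

* `Q` contains the unit and is closed under tensor products and duals, and it generates `C` as a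
  thick subcategory;
* the endomorphisms of the unit are the rational numbers;
* there are no nonzero morphisms `𝟙⟦n⟧ ⟶ X` with `X` in `Q` and `n < 0` (for motives these groups
  are the higher Chow groups `CH(X, n)`, which vanish for `n < 0`);
* the Frobenius is natural, trivial on the unit and compatible with shifts;
* for `X` in `Q` there are polynomials `P i` with rational coefficients, the same for all `l`, such
  that `P i` annihilates the Frobenius on `H^i(X)` for each `l`; they are pairwise coprime, and
  `1` is not a root of `P i` for `i ≠ 0` (Weil conjectures, proved by Deligne). -/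
structure FiniteFieldMotives (Q : ObjectProperty C) (F : ∀ X : C, X ⟶ X) {Λ : Type*}
    {E : Λ → Type w} [∀ l, Field (E l)] (R : ∀ l, Realisation C (E l)) : Prop where
  unit : Q (𝟙_ C)
  tensor (X Y : C) : Q X → Q Y → Q (X ⊗ Y)
  dual (X : C) : Q X → Q (Xᘁ : C)
  generates (P : ObjectProperty C) : IsThick P → (∀ X, Q X → P X) → ∀ X, P X
  scalars (f : 𝟙_ C ⟶ 𝟙_ C) : ∃ q : ℚ, f = q • 𝟙 (𝟙_ C)
  chow (X : C) : Q X → ∀ n : ℤ, n < 0 → ∀ f : (𝟙_ C)⟦n⟧ ⟶ X, f = 0
  natural {X Y : C} (f : X ⟶ Y) : F X ≫ f = f ≫ F Y
  frob_unit : F (𝟙_ C) = 𝟙 (𝟙_ C)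
  frob_shift (X : C) (n : ℤ) : F (X⟦n⟧) = (F X)⟦n⟧'
  weil (X : C) : Q X → ∃ P : ℤ → Polynomial ℚ, (∀ i, i ≠ 0 → (P i).eval 1 ≠ 0) ∧
    (∀ i j, i ≠ j → IsCoprime (P i) (P j)) ∧ ∀ l i, (R l).H.map ((ev (F X) (P i))⟦i⟧') = 0

/-- Parshin's conjecture: for `X` in `Q` there are no nonzero morphisms `𝟙⟦n⟧ ⟶ X` with `n > 0`
(for motives: the higher Chow groups `CH(X, n)` with rational coefficients vanish for `n > 0`). -/
def Parshin (Q : ObjectProperty C) : Prop :=
  ∀ X : C, Q X → ∀ n : ℤ, 0 < n → ∀ f : (𝟙_ C)⟦n⟧ ⟶ X, f = 0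

/-- Rational and numerical equivalence agree (Beilinson's conjecture): every nonzero morphism
`x : 𝟙 ⟶ X` with `X` in `Q` (a cycle class modulo rational equivalence) has a nonzero composition
with some `y : X ⟶ 𝟙` (a nonzero intersection number with some cycle class). -/
def RatEqNum (Q : ObjectProperty C) : Prop :=
  ∀ X : C, Q X → ∀ x : 𝟙_ C ⟶ X, x ≠ 0 → ∃ y : X ⟶ 𝟙_ C, x ≫ y ≠ 0

end

/-- A category is (von Neumann) regular if every morphism `f` has a `g` with `f ≫ g ≫ f = f`. For a
triangulated category: all distinguished triangles split. -/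
def IsRegularCat (C : Type u) [Category.{v} C] : Prop :=
  ∀ (X Y : C) (f : X ⟶ Y), ∃ g : Y ⟶ X, f ≫ g ≫ f = f

end Run7.h478.FF
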