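import Pool.Agent.Run7.h478.FF.Main

/-!
# Faithfulness of one realisation over a finite field
-/

set_option autoImplicit false
set_option linter.unusedSectionVars false
set_option linter.unusedSimpArgs false
set_option backward.isDefEq.respectTransparency false
set_option backward.defeqAttrib.useBackward true

open CategoryTheory Limits MonoidalCategory Pretriangulated Triangulated

namespace Run7.h478.FF

open Pool.Agent.Y116.MT Run7.h822.MT Pool.Agent.V1178.MT

universe v u w

open Functor.LaxMonoidal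
open scoped ZeroObject

section

variable {C : Type u} [Category.{v} C] [Preadditive C] [HasZeroObject C] [HasShift C ℤ]
  [∀ n : ℤ, (shiftFunctor C n).Additive] [Pretriangulated C]
  [MonoidalCategory C] [SymmetricCategory C] [TensorTriangulated C]
  [MonoidalPreadditive C] [RightRigidCategory C] [IsTriangulated C] {E : Type w} [Field E]
  {R : Realisation C E}

lemma map_shift_zero {X Y : C} (f : X ⟶ Y) (h : R.H.map f = 0) :
    R.H.map (f⟦(0 : ℤ)⟧') = 0 := by
  have h5 : f⟦(0 : ℤ)⟧' = (shiftFunctorZero C ℤ).hom.app _ ≫ f ≫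
      (shiftFunctorZero C ℤ).inv.app _ := shiftZero' (A := ℤ) (f := f)
  rw [h5, Functor.map_comp, Functor.map_comp, h, zero_comp, comp_zero]

/-- A nonzero map from the cohomology of the unit is injective. -/
lemma mono_unit {V : ModuleCat.{w} E} (g : R.H.obj ((𝟙_ C)⟦(0 : ℤ)⟧) ⟶ V) (hg : g ≠ 0) :
    Mono g := by
  let e : 𝟙_ (ModuleCat.{w} E) ≅ R.H.obj ((𝟙_ C)⟦(0 : ℤ)⟧) :=
    asIso (ε R.H) ≪≫ R.H.mapIso ((shiftFunctorZero C ℤ).app (𝟙_ C)).symm
  have h1 : Mono (e.hom ≫ g) := by
    rw [ModuleCat.mono_iff_injective, injective_iff_map_eq_zero]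
    intro (a : E) ha
    by_contra hne
    apply hg
    rw [← cancel_epi e.hom, comp_zero]
    ext
    have h2 : (e.hom ≫ g).hom (a : E) = a • (e.hom ≫ g).hom (1 : E) := by
      rw [← map_smul]
      congr 1
      exact (mul_one a).symm
    rw [h2] at ha
    exact (smul_eq_zero.1 ha).resolve_left hne
  have h2 : g = e.inv ≫ e.hom ≫ g := by rw [Iso.inv_hom_id_assoc]
  rw [h2]
  infer_instance

lemma deg_pw {X Z : C} (hX : R.Deg X 0) (hZ : R.Deg Z 0) (n : ℕ) : R.Deg (pw X Z n) 0 := by
  induction n with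
  | zero => exact hX
  | succ n ih => simpa using ih.tensor hZ

/-- The realisation is faithful: a morphism which acts as zero on the cohomology is zero. -/
def FaithfulR (R : Realisation C E) : Prop :=
  ∀ (X Y : C) (f : X ⟶ Y), (∀ i : ℤ, R.H.map (f⟦i⟧') = 0) → f = 0

/-- If the realisation is faithful, non zero maps from the unit to a pure object in degree zero are
detected by maps to the unit. -/
theorem faithful_pairing [Linear ℚ C] (hF : FaithfulR R) {N : C} (hN : R.Deg N 0)
    (Pr : ObjectProperty C) (hPu : Pr (𝟙_ C)) (hPQ : ∀ X, Pr X → Pr (X ⊗ N))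
    (hP0 : ∀ X, Pr X → ∀ (m : ℤ), 0 < m → ∀ f : X ⟶ (𝟙_ C)⟦m⟧, f = 0)
    (s : 𝟙_ C ⟶ N) (hs : s ≠ 0) : ∃ r : N ⟶ 𝟙_ C, s ≫ r ≠ 0 := by
  by_contra hcon
  push Not at hcon
  obtain ⟨Z, q, δ, hT⟩ := distinguished_cocone_triangle s
  have h0 : R.H.map (s⟦(0 : ℤ)⟧') ≠ 0 := by
    intro h
    apply hs
    apply hF
    intro i
    by_cases hi : i = 0
    · subst hi
      exact h
    · exact (deg_unit i hi).eq_of_src _ _
  have hm := mono_unit _ h0
  have hZ : R.Deg Z 0 := by
    intro i hi
    by_cases hi1 : i = -1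
    · subst hi1
      refine cone_zero (R := R) hT (-1) ?_ hm
      exact ⟨fun a b _ => (hN (-1) (by omega)).eq_of_src a b⟩
    · exact hz3 R.H hT i (hN i hi) (deg_unit _ (by omega))
  have hpw := fun n => deg_pw (R := R) deg_unit hZ n
  have hn : alt (𝟙_ C) Z (Module.finrank E (R.H.obj Z) + 1) = 0 := by
    apply hF
    intro i
    by_cases hi : i = 0
    · subst hi
      apply map_shift_zero
      have h1 := kap_iso hpw (Module.finrank E (R.H.obj Z) + 1)
      rw [← cancel_epi (kap R.H (𝟙_ C) Z (Module.finrank E (R.H.obj Z) + 1)), ← alt_lax,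
        alt_vec_zero _ _ _ (Nat.lt_succ_self _), zero_comp, comp_zero]
    · exact (hpw _ i hi).eq_of_src _ _
  have h1 := starN_ne_zero δ s q hT Pr hPQ (fun X hX m f => un_zero (hP0 X hX) m f) hPu hcon
    (not_isZero_unit R) (Module.finrank E (R.H.obj Z) + 1)
  apply h1
  have h2 := alt_star δ (𝟙 (𝟙_ C)) (Module.finrank E (R.H.obj Z) + 1)
  rw [hn, zero_comp] at h2
  exact zero_of_zsmul _ _ (by exact_mod_cast Nat.factorial_ne_zero _) h2.symm

end

section

variable {C : Type u} [Category.{v} C] [Preadditive C] [HasZeroObject C] [HasShift C ℤ]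
  [∀ n : ℤ, (shiftFunctor C n).Additive] [Pretriangulated C] [IsTriangulated C]
  [MonoidalCategory C]
  [SymmetricCategory C] [TensorTriangulated C] [RightRigidCategory C] [Linear ℚ C]
  [MonoidalPreadditive C] [IsIdempotentComplete C]
  {Q : ObjectProperty C} {F : ∀ X : C, X ⟶ X} {Λ : Type*}
  {E : Λ → Type w} [∀ l, Field (E l)] {R : ∀ l, Realisation C (E l)}
  (hM : FiniteFieldMotives Q F R)

include hM

/-- Faithfulness of one realisation gives both conjectures. -/
theorem of_faithful (l : Λ) (hF : FaithfulR (R l)) : RatEqNum Q ∧ Parshin Q := by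
  constructor
  · intro X hX x hx
    obtain ⟨P, hP1, hP2, hP3⟩ := hM.weil X hX
    obtain ⟨N, hNb⟩ := (R l).bounded X
    let s : Finset ℤ := (Finset.Icc (-(N : ℤ)) N).erase 0
    let G : Polynomial ℚ := ∏ j ∈ s, P j
    have hG1 : G.eval 1 ≠ 0 := by
      rw [Polynomial.eval_prod, Finset.prod_ne_zero_iff]
      intro j hj
      exact hP1 j (Finset.ne_of_mem_erase hj)
    have hcop : IsCoprime (P 0) G := by
      apply IsCoprime.prod_right
      intro j hj
      exact hP2 0 j (Finset.ne_of_mem_erase hj).symm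
    have hGk : ∀ i : ℤ, i ≠ 0 → (R l).H.map ((ev (F X) G)⟦i⟧') = 0 := by
      intro i hi
      by_cases hi' : i ∈ Finset.Icc (-(N : ℤ)) N
      · exact H_ev_dvd hM (Finset.dvd_prod_of_mem P (Finset.mem_erase.2 ⟨hi, hi'⟩)) (hP3 l i)
      · refine (hNb i ?_).eq_of_src _ _
        rw [Finset.mem_Icc, not_and_or, not_le, not_le] at hi'
        omega
    have hMM : ev (F X) (P 0 * G) = 0 := by
      apply hF
      intro i
      by_cases hi : i = 0
      · subst hi
        exact H_ev_dvd hM (Dvd.intro _ rfl) (hP3 l 0)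
      · exact H_ev_dvd hM (Dvd.intro_left _ rfl) (hGk i hi)
    obtain ⟨a, b, hab⟩ := hcop
    have hz : ev (F X) (a * P 0 * (b * G)) = 0 := by
      have : a * P 0 * (b * G) = (P 0 * G) * (a * b) := by ring
      rw [this, ev_mul, hMM, zero_comp]
    have he : ev (F X) (b * G) ≫ ev (F X) (b * G) = ev (F X) (b * G) := by
      have h3 : b * G * (b * G) = b * G - a * P 0 * (b * G) := by
        have : b * G = 1 - a * P 0 := by rw [← hab]; ring
        rw [this]
        ring
      rw [← ev_mul, h3, ev_sub, hz, sub_zero]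
    obtain ⟨V, i, p, hip, hpi⟩ := IsIdempotentComplete.idempotents_split X _ he
    have hVdeg : (R l).Deg V 0 := by
      intro n hn
      rw [IsZero.iff_id_eq_zero]
      have h4 : (R l).H.map ((ev (F X) (b * G))⟦n⟧') = 0 :=
        H_ev_dvd hM (Dvd.intro_left _ rfl) (hGk n hn)
      have h5 : 𝟙 ((R l).H.obj (V⟦n⟧)) = (R l).H.map (i⟦n⟧') ≫
          (R l).H.map ((ev (F X) (b * G))⟦n⟧') ≫ (R l).H.map (p⟦n⟧') := by
        rw [← hpi, ← Functor.map_comp, ← Functor.map_comp, ← Functor.map_comp, ← Functor.map_comp]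
        rw [Category.assoc, ← Category.assoc i, hip, Category.id_comp,
          CategoryTheory.Functor.map_id, CategoryTheory.Functor.map_id]
      rw [h5, h4, zero_comp, comp_zero]
    have hVr : Ret Q V := ⟨X, i, p, hX, hip⟩
    have hxp : x ≫ p ≠ 0 := by
      intro h0
      apply hx
      have h3 : ev (F X) G = ev (F X) (b * G) ≫ ev (F X) G := by
        have h4 : G = b * G * G + (P 0 * G) * a := by
          calc G = (a * P 0 + b * G) * G := by rw [hab, one_mul]
            _ = _ := by ring
        conv_lhs => rw [h4]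
        rw [ev_add, ev_mul _ (P 0 * G), hMM, zero_comp, add_zero, ev_mul _ (b * G)]
      have h5 : x ≫ ev (F X) G = 0 := by
        rw [h3, ← hpi, Category.assoc, ← Category.assoc, h0, zero_comp]
      rw [unit_ev0 hM] at h5
      exact (smul_eq_zero.1 h5).resolve_left hG1
    obtain ⟨y, hy⟩ := faithful_pairing hF hVdeg (Ret Q) (Ret.of hM.unit)
      (fun Z hZ => hZ.tensor hM hVr) (fun Z hZ m hm f => chow_dual hM hZ hm f) (x ≫ p) hxp
    exact ⟨p ≫ y, by rwa [← Category.assoc]⟩
  · intro X hX n hn f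
    obtain ⟨P, hP1, _, hP3⟩ := hM.weil X hX
    refine eq_zero_of_ev hM f (P (-n)) (hP1 (-n) (by omega)) ?_
    apply hF
    intro i
    by_cases hi : i = -n
    · subst hi
      rw [Functor.map_comp, Functor.map_comp, hP3, comp_zero]
    · refine IsZero.eq_of_src ?_ _ _
      exact (deg_unit (R := R l) (n + i) (by omega)).of_iso
        ((R l).H.mapIso ((shiftFunctorAdd C n i).app (𝟙_ C)).symm)

/-- The realisations are faithful if rational and numerical equivalence agree and Parshin's
conjecture holds. -/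
theorem faithful_of_conjectures [Nonempty Λ] [∀ l, CharZero (E l)] (hN : RatEqNum Q)
    (hP : Parshin Q) (l : Λ) : FaithfulR (R l) := by
  intro X Y f hf
  have hall := fs_all hM hN hP
  obtain ⟨g, hg⟩ := (of_conjectures hM hN hP).2 _ _ f
  have he : (f ≫ g) ≫ (f ≫ g) = f ≫ g := by
    have := congrArg (fun x => x ≫ g) hg
    simpa only [Category.assoc] using this
  obtain ⟨S, i, p, hip, hpi⟩ := IsIdempotentComplete.idempotents_split X _ he
  obtain ⟨k, hk⟩ := hall S
  have hS : IsZero S := by
    apply fs_cons hM hN hk l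
    intro n
    rw [IsZero.iff_id_eq_zero]
    have h5 : 𝟙 ((R l).H.obj (S⟦n⟧)) = (R l).H.map (i⟦n⟧') ≫
        (R l).H.map ((f ≫ g)⟦n⟧') ≫ (R l).H.map (p⟦n⟧') := by
      rw [← hpi, ← Functor.map_comp, ← Functor.map_comp, ← Functor.map_comp, ← Functor.map_comp]
      rw [Category.assoc, ← Category.assoc i, hip, Category.id_comp,
        CategoryTheory.Functor.map_id, CategoryTheory.Functor.map_id]
    rw [h5, Functor.map_comp, Functor.map_comp, hf, zero_comp, zero_comp, comp_zero]
  have h0 : f ≫ g = 0 := by rw [← hpi, hS.eq_of_tgt p 0, zero_comp]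
  rw [← hg, ← Category.assoc, h0, zero_comp]

end

end Run7.h478.FF
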