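import Pool.Agent.Run7.h478.FF.Basic

/-!
# Consequences of a motivic t-structure over a finite field
-/

set_option autoImplicit false
set_option linter.unusedSectionVars false
set_option linter.unusedSimpArgs false
set_option backward.isDefEq.respectTransparency false
set_option backward.defeqAttrib.useBackward true

open CategoryTheory Limits MonoidalCategory Pretriangulated Triangulated

namespace Run7.h478.FF

open Pool.Agent.Y116.MT Run7.h822.MT Pool.Agent.V1178.MT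

universe v u w

section

variable {C : Type u} [Category.{v} C] [Preadditive C] [HasZeroObject C] [HasShift C ℤ]
  [∀ n : ℤ, (shiftFunctor C n).Additive] [Pretriangulated C] [MonoidalCategory C]
  [SymmetricCategory C] [TensorTriangulated C] [RightRigidCategory C] [Linear ℚ C]
  [MonoidalPreadditive C]
  {Q : ObjectProperty C} {F : ∀ X : C, X ⟶ X} {Λ : Type*}
  {E : Λ → Type w} [∀ l, Field (E l)] {R : ∀ l, Realisation C (E l)}

lemma hom_shift_zero {A X : C} {n m : ℤ} (hnm : m + n = 0) (h : ∀ f : A⟦n⟧ ⟶ X, f = 0)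
    (g : A ⟶ X⟦m⟧) : g = 0 := by
  apply (shiftFunctor C n).map_injective
  rw [← cancel_mono ((shiftFunctorCompIsoId C m n hnm).hom.app X), h (g⟦n⟧' ≫ _)]
  simp

lemma hom_shift_zero' {A X : C} {n m : ℤ} (hnm : n + m = 0) (h : ∀ f : A ⟶ X⟦m⟧, f = 0)
    (g : A⟦n⟧ ⟶ X) : g = 0 := by
  apply (shiftFunctor C m).map_injective
  rw [← cancel_epi ((shiftFunctorCompIsoId C n m hnm).inv.app A), h (_ ≫ g⟦m⟧')]
  simp

/-- The direct summands of the objects of `Q`. -/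
def Ret (Q : ObjectProperty C) : ObjectProperty C := fun Y =>
  ∃ (X : C) (i : Y ⟶ X) (r : X ⟶ Y), Q X ∧ i ≫ r = 𝟙 Y

lemma Ret.of {X : C} (h : Q X) : Ret Q X := ⟨X, 𝟙 _, 𝟙 _, h, by simp⟩

lemma Ret.trans {Y Z : C} (h : Ret Q Y) (i : Z ⟶ Y) (r : Y ⟶ Z) (hir : i ≫ r = 𝟙 Z) : Ret Q Z := by
  obtain ⟨X, i', r', hX, h'⟩ := h
  exact ⟨X, i ≫ i', r' ≫ r, hX, by rw [Category.assoc, ← Category.assoc i', h', Category.id_comp,
    hir]⟩

lemma Ret.tensor (hM : FiniteFieldMotives Q F R) {Y Z : C} (hY : Ret Q Y) (hZ : Ret Q Z) :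
    Ret Q (Y ⊗ Z) := by
  obtain ⟨X, i, r, hX, h⟩ := hY
  obtain ⟨X', i', r', hX', h'⟩ := hZ
  refine ⟨X ⊗ X', i ⊗ₘ i', r ⊗ₘ r', hM.tensor _ _ hX hX', ?_⟩
  rw [MonoidalCategory.tensorHom_comp_tensorHom, h, h', MonoidalCategory.id_tensorHom_id]

lemma Ret.dual (hM : FiniteFieldMotives Q F R) {Y : C} (hY : Ret Q Y) : Ret Q (Yᘁ : C) := by
  obtain ⟨X, i, r, hX, h⟩ := hY
  refine ⟨_, rᘁ, iᘁ, hM.dual _ hX, ?_⟩
  rw [← comp_rightAdjointMate, h, rightAdjointMate_id]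

lemma Ret.iso {Y Z : C} (h : Ret Q Y) (e : Y ≅ Z) : Ret Q Z :=
  h.trans e.inv e.hom e.inv_hom_id

/-- `X⟦m⟧`-valued sections vanish for `m > 0`. -/
lemma chow_ret (hM : FiniteFieldMotives Q F R) {X : C} (hX : Ret Q X) {n : ℤ} (hn : n < 0)
    (f : (𝟙_ C)⟦n⟧ ⟶ X) : f = 0 := by
  obtain ⟨X', i, r, hX', h⟩ := hX
  rw [← Category.comp_id f, ← h, ← Category.assoc, hM.chow X' hX' n hn (f ≫ i), zero_comp]

lemma chow_dual (hM : FiniteFieldMotives Q F R) {X : C} (hX : Ret Q X) {m : ℤ} (hm : 0 < m)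
    (f : X ⟶ (𝟙_ C)⟦m⟧) : f = 0 := by
  apply eq_zero_of_nm
  rw [← cancel_mono (lShift (𝟙_ C) Xᘁ m).hom, ← cancel_mono ((λ_ (Xᘁ : C)).hom⟦m⟧')]
  rw [hom_shift_zero (n := -m) (by omega) (fun g => chow_ret hM (hX.dual hM) (by omega) g)
    (((nm f) ≫ (lShift (𝟙_ C) Xᘁ m).hom) ≫ (λ_ (Xᘁ : C)).hom⟦m⟧')]
  simp

end

section

variable {C : Type u} [Category.{v} C] [Preadditive C] [HasZeroObject C] [HasShift C ℤ]
  [∀ n : ℤ, (shiftFunctor C n).Additive] [Pretriangulated C] [MonoidalCategory C]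
  [SymmetricCategory C] [TensorTriangulated C] [RightRigidCategory C] [Linear ℚ C]
  [MonoidalPreadditive C] [IsTriangulated C]
  {Q : ObjectProperty C} {F : ∀ X : C, X ⟶ X} {Λ : Type*}
  {E : Λ → Type w} [∀ l, Field (E l)] {R : ∀ l, Realisation C (E l)}
  (hM : FiniteFieldMotives Q F R) {l : Λ} {t : TStructure C} (hR : CE t (R l))
  (ht : TensorCompat t) (hu : Hrt t (𝟙_ C))
  (hid : ∀ e : 𝟙_ C ⟶ 𝟙_ C, e ≫ e = e → e = 0 ∨ e = 𝟙 _)

/-- The polynomials `G i` annihilate the Frobenius on the cohomology in the degrees `i` in `s`. -/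
def Kil (F : ∀ X : C, X ⟶ X) {E : Type w} [Field E] (R : Realisation C E)
    (G : ℤ → Polynomial ℚ) (s : ℤ → Prop) (X : C) : Prop :=
  ∀ i, s i → R.H.map ((ev (F X) (G i))⟦i⟧') = 0

include hM hR

lemma kil_trunc {G : ℤ → Polynomial ℚ} {s : ℤ → Prop} {A Y B : C} {f : A ⟶ Y} {g : Y ⟶ B}
    {h : B ⟶ A⟦(1 : ℤ)⟧} (hT : Triangle.mk f g h ∈ distTriang C) {c : ℤ} (hA : t.IsLE A c)
    (hB : t.IsGE B (c + 1)) (hY : Kil F (R l) G s Y) : Kil F (R l) G s A ∧ Kil F (R l) G s B := by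
  constructor
  · intro i hi
    by_cases hc : i ≤ c
    · exact H_ev_mono hM f i (hmono1 (R l).H hT i (hR.ex.isGE hB (i - 1) (by omega))) _ (hY i hi)
    · exact (hR.ex.isLE hA i (by omega)).eq_of_src _ _
  · intro i hi
    by_cases hc : i < c + 1
    · exact (hR.ex.isGE hB i hc).eq_of_src _ _
    · exact H_ev_epi hM g i (hepi2 (R l).H hT i (hR.ex.isLE hA (i + 1) (by omega))) _ (hY i hi)

include ht hu hid

omit hM in
lemma zero_of_conc {Y : C} {j : ℤ} (h1 : t.IsLE Y j) (h2 : t.IsGE Y j) (f : Y ⟶ Y)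
    (hf : (R l).H.map (f⟦j⟧') = 0) : f = 0 := by
  apply (shiftFunctor C j).map_injective
  rw [Functor.map_zero]
  have h3 : Hrt t (Y⟦j⟧) := ⟨t.isLE_shift Y j j 0, t.isGE_shift Y j j 0⟩
  exact faithful_heart ht hR.ex hu hid h3 h3 _ hf

lemma vanish_of_kil {P : ℤ → Polynomial ℚ} (hP : ∀ i, i ≠ 0 → (P i).eval 1 ≠ 0) (N : ℕ) :
    ∀ (Y : C) (a b : ℤ), b - a ≤ N → t.IsGE Y a → t.IsLE Y b →
      Kil F (R l) P (fun i => i ≠ 0) Y → ∀ m : ℤ, 0 < m → ∀ x : (𝟙_ C)⟦m⟧ ⟶ Y, x = 0 := by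
  have base : ∀ (Y : C) (a : ℤ), t.IsGE Y a → t.IsLE Y a →
      Kil F (R l) P (fun i => i ≠ 0) Y → ∀ m : ℤ, 0 < m → ∀ x : (𝟙_ C)⟦m⟧ ⟶ Y, x = 0 := by
    intro Y a h1 h2 hK m hm x
    by_cases ha : a = 0
    · subst ha
      have h3 : t.IsLE ((𝟙_ C)⟦m⟧) (-m) := @TStructure.isLE_shift _ _ _ _ _ _ _ t (𝟙_ C) 0 m (-m)
        (by omega) hu.1
      exact t.zero_of_isLE_of_isGE _ (-m) 0 (by omega) h3 h1
    · have h3 := zero_of_conc hR ht hu hid h2 h1 _ (hK a ha)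
      exact eq_zero_of_ev hM x (P a) (hP a ha) (by rw [h3, comp_zero])
  induction N with
  | zero =>
    intro Y a b hab h1 h2
    exact base Y a h1 (t.isLE_of_le Y b a (by omega))
  | succ N ih =>
    intro Y a b hab h1 h2 hK m hm x
    obtain ⟨A, B, hA, hB, f, g, h, hT⟩ := t.exists_triangle Y a (a + 1) rfl
    have hA1 : t.IsLE A a := ⟨hA⟩
    have hB1 : t.IsGE B (a + 1) := ⟨hB⟩
    have hA2 : t.IsGE A a := isGE1 hT h1 (t.isGE_of_ge B (a - 1) (a + 1))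
    by_cases hab' : b ≤ a
    · exact base Y a h1 (t.isLE_of_le Y b a hab') hK m hm x
    have hB2 : t.IsLE B b := isLE3 hT (t.isLE_of_le A a (b + 1) (by omega)) h2
    obtain ⟨hKA, hKB⟩ := kil_trunc hM hR hT hA1 hB1 hK
    obtain ⟨y, rfl⟩ := ce2 hT x (ih B (a + 1) b (by omega) hB1 hB2 hKB m hm _)
    rw [base A a hA2 hA1 hKA m hm y, zero_comp]

lemma nilpotent_of_kil {G : Polynomial ℚ} (N : ℕ) :
    ∀ (Y : C) (a b : ℤ), b - a ≤ N → t.IsGE Y a → t.IsLE Y b →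
      Kil F (R l) (fun _ => G) (fun _ => True) Y → ∃ M : ℕ, ev (F Y) (G ^ M) = 0 := by
  have base : ∀ (Y : C) (a : ℤ), t.IsGE Y a → t.IsLE Y a →
      Kil F (R l) (fun _ => G) (fun _ => True) Y → ∃ M : ℕ, ev (F Y) (G ^ M) = 0 := by
    intro Y a h1 h2 hK
    exact ⟨1, by rw [pow_one]; exact zero_of_conc hR ht hu hid h2 h1 _ (hK a trivial)⟩
  induction N with
  | zero =>
    intro Y a b hab h1 h2
    exact base Y a h1 (t.isLE_of_le Y b a (by omega))
  | succ N ih =>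
    intro Y a b hab h1 h2 hK
    obtain ⟨A, B, hA, hB, f, g, h, hT⟩ := t.exists_triangle Y a (a + 1) rfl
    have hA1 : t.IsLE A a := ⟨hA⟩
    have hB1 : t.IsGE B (a + 1) := ⟨hB⟩
    have hA2 : t.IsGE A a := isGE1 hT h1 (t.isGE_of_ge B (a - 1) (a + 1))
    by_cases hab' : b ≤ a
    · exact base Y a h1 (t.isLE_of_le Y b a hab') hK
    have hB2 : t.IsLE B b := isLE3 hT (t.isLE_of_le A a (b + 1) (by omega)) h2
    obtain ⟨hKA, hKB⟩ := kil_trunc hM hR hT hA1 hB1 hK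
    obtain ⟨M1, hM1⟩ := base A a hA2 hA1 hKA
    obtain ⟨M2, hM2⟩ := ih B (a + 1) b (by omega) hB1 hB2 hKB
    obtain ⟨y, hy⟩ := ce2 hT (ev (F Y) (G ^ M2)) (by rw [frob_ev hM, hM2, comp_zero])
    refine ⟨M2 + M1, ?_⟩
    rw [pow_add, ev_mul, hy, Category.assoc, ← frob_ev hM, hM1, zero_comp, comp_zero]

/-- Parshin's conjecture follows. -/
theorem parshin_of_t : Parshin Q := by
  intro X hX n hn f
  obtain ⟨P, hP1, _, hP3⟩ := hM.weil X hX
  obtain ⟨N, h1, h2⟩ := bounded_t hR X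
  exact vanish_of_kil hM hR ht hu hid hP1 (2 * N) X (-N) N (by push_cast; omega) h2 h1
    (fun i _ => hP3 l i) n hn f

/-- Rational and numerical equivalence agree. -/
theorem ratEqNum_of_t [IsIdempotentComplete C] : RatEqNum Q := by
  intro X hX x hx
  obtain ⟨P, hP1, hP2, hP3⟩ := hM.weil X hX
  obtain ⟨N, h1, h2⟩ := bounded_t hR X
  let s : Finset ℤ := (Finset.Icc (-(N : ℤ)) N).erase 0
  let G : Polynomial ℚ := ∏ j ∈ s, P j
  have hG1 : G.eval 1 ≠ 0 := by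
    rw [Polynomial.eval_prod, Finset.prod_ne_zero_iff]
    intro j hj
    exact hP1 j (Finset.ne_of_mem_erase hj)
  have hcop : IsCoprime (P 0) G := by
    apply IsCoprime.prod_right
    intro j hj
    exact hP2 0 j (Finset.ne_of_mem_erase hj).symm
  have hout : ∀ i : ℤ, i ∉ Finset.Icc (-(N : ℤ)) N → IsZero ((R l).H.obj (X⟦i⟧)) := by
    intro i hi
    rw [Finset.mem_Icc, not_and_or, not_le, not_le] at hi
    rcases hi with hi | hi
    · exact hR.ex.isGE h2 i hi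
    · exact hR.ex.isLE h1 i hi
  have hGk : ∀ i : ℤ, i ≠ 0 → (R l).H.map ((ev (F X) G)⟦i⟧') = 0 := by
    intro i hi
    by_cases hi' : i ∈ Finset.Icc (-(N : ℤ)) N
    · exact H_ev_dvd hM (Finset.dvd_prod_of_mem P (Finset.mem_erase.2 ⟨hi, hi'⟩)) (hP3 l i)
    · exact (hout i hi').eq_of_src _ _
  have hK : Kil F (R l) (fun _ => P 0 * G) (fun _ => True) X := by
    intro i _
    by_cases hi : i = 0
    · subst hi
      exact H_ev_dvd hM (Dvd.intro _ rfl) (hP3 l 0)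
    · exact H_ev_dvd hM (Dvd.intro_left _ rfl) (hGk i hi)
  obtain ⟨M0, hM0⟩ := nilpotent_of_kil hM hR ht hu hid (2 * N) X (-N) N (by push_cast; omega) h2 h1
    hK
  have hMM : ev (F X) ((P 0 * G) ^ (M0 + 1)) = 0 := by
    rw [pow_succ, ev_mul, hM0, zero_comp]
  set M := M0 + 1 with hMdef
  obtain ⟨a, b, hab⟩ := (hcop.pow (m := M) (n := M))
  have hz : ev (F X) (a * P 0 ^ M * (b * G ^ M)) = 0 := by
    have : a * P 0 ^ M * (b * G ^ M) = (P 0 * G) ^ M * (a * b) := by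
      rw [mul_pow]
      ring
    rw [this, ev_mul, hMM, zero_comp]
  have he : ev (F X) (b * G ^ M) ≫ ev (F X) (b * G ^ M) = ev (F X) (b * G ^ M) := by
    have h3 : b * G ^ M * (b * G ^ M) = b * G ^ M - a * P 0 ^ M * (b * G ^ M) := by
      have : b * G ^ M = 1 - a * P 0 ^ M := by rw [← hab]; ring
      rw [this]
      ring
    rw [← ev_mul, h3, ev_sub, hz, sub_zero]
  obtain ⟨V, i, p, hip, hpi⟩ := IsIdempotentComplete.idempotents_split X _ he
  have hVdeg : (R l).Deg V 0 := by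
    intro n hn
    rw [IsZero.iff_id_eq_zero]
    have h4 : (R l).H.map ((ev (F X) (b * G ^ M))⟦n⟧') = 0 :=
      H_ev_dvd hM (by
        refine Dvd.dvd.mul_left ?_ _
        exact dvd_pow_self _ (by omega)) (hGk n hn)
    have h5 : 𝟙 ((R l).H.obj (V⟦n⟧)) = (R l).H.map (i⟦n⟧') ≫
        (R l).H.map ((ev (F X) (b * G ^ M))⟦n⟧') ≫ (R l).H.map (p⟦n⟧') := by
      rw [← hpi, ← Functor.map_comp, ← Functor.map_comp, ← Functor.map_comp, ← Functor.map_comp]
      rw [Category.assoc, ← Category.assoc i, hip, Category.id_comp,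
        CategoryTheory.Functor.map_id, CategoryTheory.Functor.map_id]
    rw [h5, h4, zero_comp, comp_zero]
  have hV : Hrt t V := ⟨isLE_of hR.cons hR.ex fun j hj => hVdeg j (by omega),
    isGE_of hR.cons hR.ex fun j hj => hVdeg j (by omega)⟩
  have hVr : Ret Q V := ⟨X, i, p, hX, hip⟩
  have hxp : x ≫ p ≠ 0 := by
    intro h0
    apply hx
    have h3 : ev (F X) (G ^ M) = ev (F X) (b * G ^ M) ≫ ev (F X) (G ^ M) := by
      have h4 : G ^ M = b * G ^ M * G ^ M + (P 0 * G) ^ M * a := by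
        rw [mul_pow]
        calc G ^ M = (a * P 0 ^ M + b * G ^ M) * G ^ M := by rw [hab, one_mul]
          _ = _ := by ring
      conv_lhs => rw [h4]
      rw [ev_add, ev_mul _ ((P 0 * G) ^ M), hMM, zero_comp, add_zero, ev_mul _ (b * G ^ M)]
    have h5 : x ≫ ev (F X) (G ^ M) = 0 := by
      rw [h3, ← hpi, Category.assoc, ← Category.assoc, h0, zero_comp]
    rw [unit_ev0 hM, Polynomial.eval_pow] at h5
    exact (smul_eq_zero.1 h5).resolve_left (pow_ne_zero _ hG1)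
  obtain ⟨y, hy⟩ := heart_pairing ht hR.ex hu hid hV (Ret Q) (Ret.of hM.unit)
    (fun Z hZ => hZ.tensor hM hVr) (fun Z hZ m hm f => chow_dual hM hZ hm f) (x ≫ p) hxp
  exact ⟨p ≫ y, by rwa [← Category.assoc]⟩

end

end Run7.h478.FF
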