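import Pool.Agent.Run7.h478.FF.PureSide

/-!
# Indecomposable pure motives over a finite field, if rational and numerical equivalence agree
-/

set_option autoImplicit false
set_option linter.unusedSectionVars false
set_option linter.unusedSimpArgs false
set_option backward.isDefEq.respectTransparency false
set_option backward.defeqAttrib.useBackward true

open CategoryTheory Limits MonoidalCategory Pretriangulated Triangulated

namespace Run7.h478.FF

open Pool.Agent.Y116.MT Run7.h822.MT Pool.Agent.V1178.MT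

universe v u w

open Functor.LaxMonoidal

section

variable {C : Type u} [Category.{v} C] [Preadditive C] [HasZeroObject C] [HasShift C ℤ]
  [∀ n : ℤ, (shiftFunctor C n).Additive] [Pretriangulated C] [MonoidalCategory C]
  [SymmetricCategory C] [TensorTriangulated C] [RightRigidCategory C] [Linear ℚ C]
  [MonoidalPreadditive C]
  {Q : ObjectProperty C} {F : ∀ X : C, X ⟶ X} {Λ : Type*}
  {E : Λ → Type w} [∀ l, Field (E l)] {R : ∀ l, Realisation C (E l)}

lemma tr_add {X : C} (a b : X ⟶ X) : tr (a + b) = tr a + tr b := by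
  simp only [tr, MonoidalPreadditive.add_whiskerRight, Preadditive.add_comp, Preadditive.comp_add]

lemma tr_zero (X : C) : tr (0 : X ⟶ X) = 0 := by
  have h := tr_add (0 : X ⟶ X) 0
  rw [add_zero] at h
  simpa using h

variable (hM : FiniteFieldMotives Q F R) (hN : RatEqNum Q)

include hN in
lemma num_ret {X : C} (hX : Ret Q X) (x : 𝟙_ C ⟶ X) (hx : x ≠ 0) : ∃ y : X ⟶ 𝟙_ C, x ≫ y ≠ 0 := by
  obtain ⟨X', i, r, hX', h⟩ := hX
  have h1 : x ≫ i ≠ 0 := by
    intro h2
    apply hx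
    rw [← Category.comp_id x, ← h, ← Category.assoc, h2, zero_comp]
  obtain ⟨y, hy⟩ := hN X' hX' _ h1
  exact ⟨i ≫ y, by rwa [← Category.assoc]⟩

include hM hN

/-- The realisations are faithful on pure motives. -/
lemma eq_zero_of_H [∀ l, CharZero (E l)] (l : Λ) {X Y : C} (hX : Ret Q X) (hY : Ret Q Y)
    (f : X ⟶ Y) (h : ∀ i : ℤ, (R l).H.map (f⟦i⟧') = 0) : f = 0 := by
  by_contra hf
  have h1 : nm f ≠ 0 := fun h2 => hf (eq_zero_of_nm f h2)
  obtain ⟨y, hy⟩ := num_ret hN (hY.tensor hM (hX.dual hM)) (nm f) h1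
  apply hy
  apply scalar_zero hM l
  rw [nm, Functor.map_comp, Functor.map_comp, H_whisker_zero f h, comp_zero, zero_comp]

omit hN in
/-- There are no morphisms between different shifts of pure motives. -/
lemma hom_shift (hP : Parshin Q) {S S' : C} (hS : Ret Q S) (hS' : Ret Q S') {n : ℤ} (hn : n ≠ 0)
    (f : S⟦n⟧ ⟶ S') : f = 0 := by
  have h0 : ∀ g : (𝟙_ C)⟦n⟧ ⟶ S' ⊗ (Sᘁ : C), g = 0 := by
    obtain ⟨X, i, r, hX, h⟩ := hS'.tensor hM (hS.dual hM)
    intro g
    have h1 : g ≫ i = 0 := by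
      rcases lt_or_gt_of_ne hn with h1 | h1
      · exact hM.chow X hX n h1 _
      · exact hP X hX n h1 _
    rw [← Category.comp_id g, ← h, ← Category.assoc, h1, zero_comp]
  have h1 : (lShift (𝟙_ C) S n).hom ≫ (λ_ S).hom⟦n⟧' ≫ f = 0 := by
    have h2 := h0 ((tensorRightHomEquiv ((𝟙_ C)⟦n⟧) S Sᘁ S')
      ((lShift (𝟙_ C) S n).hom ≫ (λ_ S).hom⟦n⟧' ≫ f))
    rw [← (tensorRightHomEquiv ((𝟙_ C)⟦n⟧) S Sᘁ S').symm_apply_apply
      ((lShift (𝟙_ C) S n).hom ≫ (λ_ S).hom⟦n⟧' ≫ f), h2]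
    simp [tensorRightHomEquiv]
  rw [← cancel_epi ((λ_ S).hom⟦n⟧'), ← cancel_epi (lShift (𝟙_ C) S n).hom, h1, comp_zero,
    comp_zero]

omit hN in
lemma weil_ret {S : C} (hS : Ret Q S) : ∃ P : ℤ → Polynomial ℚ,
    (∀ i j, i ≠ j → IsCoprime (P i) (P j)) ∧
      ∀ l i, (R l).H.map ((ev (F S) (P i))⟦i⟧') = 0 := by
  obtain ⟨X, a, r, hX, h⟩ := hS
  obtain ⟨P, _, hP2, hP3⟩ := hM.weil X hX
  refine ⟨P, hP2, fun l i => ?_⟩
  have h1 : Mono ((R l).H.map (a⟦i⟧')) := by
    have : (R l).H.map (a⟦i⟧') ≫ (R l).H.map (r⟦i⟧') = 𝟙 _ := by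
      rw [← Functor.map_comp, ← Functor.map_comp, h, CategoryTheory.Functor.map_id,
        CategoryTheory.Functor.map_id]
    exact mono_of_mono_fac this
  exact H_ev_mono hM a i h1 _ (hP3 l i)

omit hM hN in
/-- Nonzero indecomposable pure motives. -/
structure Indec (Q : ObjectProperty C) (S : C) : Prop where
  ret : Ret Q S
  nonzero : ¬ IsZero S
  idem (e : S ⟶ S) : e ≫ e = e → e = 0 ∨ e = 𝟙 S

/-- The cohomology of an indecomposable pure motive is concentrated in one degree, the same for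
all realisations. -/
lemma Indec.pure [∀ l, CharZero (E l)] [Nonempty Λ] {S : C} (hS : Indec Q S) :
    ∃ d : ℤ, ∀ l, (R l).Deg S d ∧ ¬ IsZero ((R l).H.obj (S⟦d⟧)) := by
  have hid0 : (𝟙 S) ≠ 0 := fun h => hS.nonzero ((IsZero.iff_id_eq_zero _).2 h)
  obtain ⟨P, hP2, hP3⟩ := weil_ret hM hS.ret
  obtain ⟨l₀⟩ := ‹Nonempty Λ›
  obtain ⟨d, hd⟩ : ∃ d : ℤ, ¬ IsZero ((R l₀).H.obj (S⟦d⟧)) := by
    by_contra hcon
    push Not at hcon
    exact hid0 (eq_zero_of_H hM hN l₀ hS.ret hS.ret _ fun i => (hcon i).eq_of_src _ _)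
  obtain ⟨N, hNb⟩ := (R l₀).bounded S
  let s : Finset ℤ := (Finset.Icc (-(N : ℤ)) N).erase d
  let G : Polynomial ℚ := ∏ j ∈ s, P j
  have hcop : IsCoprime (P d) G := by
    apply IsCoprime.prod_right
    intro j hj
    exact hP2 d j (Finset.ne_of_mem_erase hj).symm
  have hGk : ∀ i : ℤ, i ≠ d → (R l₀).H.map ((ev (F S) G)⟦i⟧') = 0 := by
    intro i hi
    by_cases hi' : i ∈ Finset.Icc (-(N : ℤ)) N
    · exact H_ev_dvd hM (Finset.dvd_prod_of_mem P (Finset.mem_erase.2 ⟨hi, hi'⟩)) (hP3 l₀ i)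
    · refine (hNb i ?_).eq_of_src _ _
      rw [Finset.mem_Icc, not_and_or, not_le, not_le] at hi'
      omega
  have hPG : ev (F S) (P d * G) = 0 := by
    apply eq_zero_of_H hM hN l₀ hS.ret hS.ret
    intro i
    by_cases hi : i = d
    · subst hi
      exact H_ev_dvd hM (Dvd.intro _ rfl) (hP3 l₀ i)
    · exact H_ev_dvd hM (Dvd.intro_left _ rfl) (hGk i hi)
  obtain ⟨a, b, hab⟩ := hcop
  have hz : ev (F S) (a * P d * (b * G)) = 0 := by
    have : a * P d * (b * G) = (P d * G) * (a * b) := by ring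
    rw [this, ev_mul, hPG, zero_comp]
  have he : ev (F S) (b * G) ≫ ev (F S) (b * G) = ev (F S) (b * G) := by
    have h3 : b * G * (b * G) = b * G - a * P d * (b * G) := by
      have : b * G = 1 - a * P d := by rw [← hab]; ring
      rw [this]
      ring
    rw [← ev_mul, h3, ev_sub, hz, sub_zero]
  have hsum : ev (F S) (a * P d) + ev (F S) (b * G) = 𝟙 S := by rw [← ev_add, hab, ev_one]
  have he1 : ev (F S) (b * G) = 𝟙 S := by
    rcases hS.idem _ he with h0 | h0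
    · exfalso
      apply hd
      rw [IsZero.iff_id_eq_zero]
      have h1 : 𝟙 ((R l₀).H.obj (S⟦d⟧)) = (R l₀).H.map ((ev (F S) (a * P d))⟦d⟧') := by
        rw [h0, add_zero] at hsum
        rw [hsum, CategoryTheory.Functor.map_id, CategoryTheory.Functor.map_id]
      rw [h1]
      exact H_ev_dvd hM (Dvd.intro_left _ rfl) (hP3 l₀ d)
    · exact h0
  have hdeg0 : ∀ i : ℤ, i ≠ d → IsZero ((R l₀).H.obj (S⟦i⟧)) := by
    intro i hi
    rw [IsZero.iff_id_eq_zero]
    have h1 : 𝟙 ((R l₀).H.obj (S⟦i⟧)) = (R l₀).H.map ((ev (F S) (b * G))⟦i⟧') := by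
      rw [he1, CategoryTheory.Functor.map_id, CategoryTheory.Functor.map_id]
    rw [h1]
    exact H_ev_dvd hM (Dvd.intro_left _ rfl) (hGk i hi)
  have hPd : ev (F S) (P d) = 0 := by
    apply eq_zero_of_H hM hN l₀ hS.ret hS.ret
    intro i
    by_cases hi : i = d
    · subst hi
      exact hP3 l₀ i
    · exact (hdeg0 i hi).eq_of_src _ _
  have hdeg : ∀ l, ∀ i : ℤ, i ≠ d → IsZero ((R l).H.obj (S⟦i⟧)) := by
    intro l i hi
    rw [IsZero.iff_id_eq_zero]
    obtain ⟨a', b', hab'⟩ := hP2 d i hi.symm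
    have h2 : ev (F S) (a' * P d) + ev (F S) (b' * P i) = 𝟙 S := by rw [← ev_add, hab', ev_one]
    rw [ev_mul _ a', hPd, comp_zero, zero_add] at h2
    have h1 : 𝟙 ((R l).H.obj (S⟦i⟧)) = (R l).H.map ((ev (F S) (b' * P i))⟦i⟧') := by
      rw [h2, CategoryTheory.Functor.map_id, CategoryTheory.Functor.map_id]
    rw [h1]
    exact H_ev_dvd hM (Dvd.intro_left _ rfl) (hP3 l i)
  refine ⟨d, fun l => ⟨hdeg l, fun hz => ?_⟩⟩
  apply hid0
  apply eq_zero_of_H hM hN l hS.ret hS.ret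
  intro i
  by_cases hi : i = d
  · subst hi
    exact hz.eq_of_src _ _
  · exact (hdeg l i hi).eq_of_src _ _

/-- The trace pairing between shifts of pure motives is non-degenerate. -/
lemma trace_nondeg {S S' : C} (hS : Ret Q S) (hS' : Ret Q S') (d : ℤ) (f : S⟦d⟧ ⟶ S'⟦d⟧)
    (hf : f ≠ 0) : ∃ g : S'⟦d⟧ ⟶ S⟦d⟧, tr (f ≫ g) ≠ 0 := by
  have h1 : nm f ≠ 0 := fun h2 => hf (eq_zero_of_nm f h2)
  have h2 : Ret Q (S'⟦d⟧ ⊗ ((S⟦d⟧)ᘁ : C)) :=
    (hS'.tensor hM (hS.dual hM)).iso (shIso S S' d).symm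
  obtain ⟨y, hy⟩ := num_ret hN h2 (nm f) h1
  obtain ⟨b, hb⟩ := exists_tr' y
  exact ⟨b, by rwa [← hb f]⟩

end

section Reg

variable {C : Type u} [Category.{v} C] [Preadditive C] [HasZeroObject C] [HasShift C ℤ]
  [∀ n : ℤ, (shiftFunctor C n).Additive] [Pretriangulated C] [MonoidalCategory C]
  [SymmetricCategory C] [TensorTriangulated C] [RightRigidCategory C] [Linear ℚ C]
  [MonoidalPreadditive C]
  {Q : ObjectProperty C} {F : ∀ X : C, X ⟶ X} {Λ : Type*}
  {E : Λ → Type w} [∀ l, Field (E l)] {R : ∀ l, Realisation C (E l)}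
  (hM : FiniteFieldMotives Q F R)

/-- The value of an endomorphism of the unit. -/
noncomputable def val {E : Type w} [Field E] (R : Realisation C E) : (𝟙_ C ⟶ 𝟙_ C) →+ E where
  toFun f := (ε R.H ≫ R.H.map f ≫ inv (ε R.H)).hom (1 : E)
  map_zero' := by
    rw [Functor.map_zero, zero_comp, comp_zero]
    rfl
  map_add' f g := by
    rw [Functor.map_add, Preadditive.add_comp, Preadditive.comp_add]
    rfl

lemma val_one {E : Type w} [Field E] (R : Realisation C E) : val R (𝟙 _) = 1 := by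
  change (ε R.H ≫ R.H.map (𝟙 _) ≫ inv (ε R.H)).hom (1 : E) = 1
  rw [CategoryTheory.Functor.map_id, Category.id_comp, IsIso.hom_inv_id]
  rfl

lemma val_smul {E : Type w} [Field E] [CharZero E] (R : Realisation C E) (q : ℚ) :
    val R (q • 𝟙 (𝟙_ C)) = (q : E) := by
  have h1 : (q.den : ℤ) • (q • 𝟙 (𝟙_ C)) = q.num • 𝟙 (𝟙_ C) := by
    rw [← Int.cast_smul_eq_zsmul ℚ, smul_smul, ← Int.cast_smul_eq_zsmul ℚ q.num]
    congr 1
    push_cast
    rw [mul_comm]
    exact Rat.mul_den_eq_num q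
  have h2 := congrArg (val R) h1
  rw [map_zsmul, map_zsmul, val_one, zsmul_eq_mul, zsmul_eq_mul, mul_one] at h2
  have h3 : ((q.den : ℤ) : E) ≠ 0 := by
    have := q.den_nz
    exact_mod_cast this
  have h4 : (q : E) = (q.num : E) / (q.den : E) := Rat.cast_def q
  rw [h4, eq_div_iff (by exact_mod_cast q.den_nz), mul_comm]
  exact_mod_cast h2

include hM in
lemma exists_tau (X : C) : ∃ τ : End X →ₗ[ℚ] ℚ, ∀ a : X ⟶ X, tr a = τ (a : End X) • 𝟙 (𝟙_ C) ∧
    ((τ (a : End X) = 0) → tr a = 0) := by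
  by_cases h1 : IsZero (𝟙_ C)
  · exact ⟨0, fun a => ⟨h1.eq_of_src _ _, fun _ => h1.eq_of_src _ _⟩⟩
  · have h2 : (𝟙 (𝟙_ C)) ≠ 0 := fun h => h1 ((IsZero.iff_id_eq_zero _).2 h)
    choose q hq using fun a : X ⟶ X => hM.scalars (tr a)
    have hadd : ∀ a b : X ⟶ X, q (a + b) = q a + q b := by
      intro a b
      have h3 : (q (a + b) - (q a + q b)) • 𝟙 (𝟙_ C) = 0 := by
        rw [sub_smul, add_smul, ← hq, ← hq, ← hq, tr_add, sub_self]
      exact sub_eq_zero.1 ((smul_eq_zero.1 h3).resolve_right h2)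
    let τ0 : End X →+ ℚ := AddMonoidHom.mk' (fun a => q a) hadd
    refine ⟨τ0.toRatLinearMap, fun a => ⟨hq a, fun h => ?_⟩⟩
    rw [hq a]
    have : q a = 0 := h
    rw [this, zero_smul]

/-- The action of the endomorphisms on the cohomology. -/
noncomputable def rho {E : Type w} [Field E] (R : Realisation C E) (X : C) :
    End X →+* Module.End E (R.H.obj X) where
  toFun a := (R.H.map (a : X ⟶ X)).hom
  map_one' := by
    change (R.H.map (𝟙 X)).hom = 1
    rw [CategoryTheory.Functor.map_id]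
    rfl
  map_mul' a b := by
    change (R.H.map ((b : X ⟶ X) ≫ (a : X ⟶ X))).hom = _
    rw [Functor.map_comp]
    rfl
  map_zero' := by
    change (R.H.map (0 : X ⟶ X)).hom = 0
    rw [Functor.map_zero]
    rfl
  map_add' a b := by
    change (R.H.map ((a : X ⟶ X) + (b : X ⟶ X))).hom = _
    rw [Functor.map_add]
    rfl

include hM in
/-- The endomorphisms of an object in degree zero are regular if the trace form is not
degenerate. -/
lemma regular_end [∀ l, CharZero (E l)] (l : Λ) {X : C} (hX : (R l).Deg X 0)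
    (hnd : ∀ a : X ⟶ X, a ≠ 0 → ∃ b : X ⟶ X, tr (a ≫ b) ≠ 0) (a : X ⟶ X) :
    ∃ b : X ⟶ X, a ≫ b ≫ a = a := by
  obtain ⟨τ, hτ⟩ := exists_tau hM X
  have key : ∀ a : End X, LinearMap.trace (E l) ((R l).H.obj X) (rho (R l) X a) =
      algebraMap ℚ (E l) (τ a) := by
    intro a
    have h1 := H_trace hX (a : X ⟶ X)
    have h2 : val (R l) (tr (a : X ⟶ X)) = LinearMap.trace (E l) ((R l).H.obj X)
      (rho (R l) X a) := h1
    rw [← h2, (hτ a).1, val_smul]
    rfl
  have hcomm : ∀ a b : End X, τ (a * b) = τ (b * a) := by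
    intro a b
    apply (algebraMap ℚ (E l)).injective
    rw [← key, ← key, RingHom.map_mul (rho (R l) X) a b, RingHom.map_mul (rho (R l) X) b a,
      LinearMap.trace_mul_comm]
  have h3 : ∀ a : End X, a ≠ 0 → ∃ b : End X, τ (a * b) ≠ 0 := by
    intro a ha
    obtain ⟨b, hb⟩ := hnd a ha
    refine ⟨b, fun h => hb ?_⟩
    apply (hτ _).2
    rw [hcomm] at h
    exact h
  obtain ⟨b, hb⟩ := regular_of_trace (rho (R l) X) τ key h3 (a : End X)
  exact ⟨b, hb⟩

end Reg

end Run7.h478.FF
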