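import Pool.Agent.Run7.h478.FF.Decomp

/-!
# The motivic t-structure over a finite field
-/

set_option autoImplicit false
set_option linter.unusedSectionVars false
set_option linter.unusedSimpArgs false
set_option backward.isDefEq.respectTransparency false
set_option backward.defeqAttrib.useBackward true

open CategoryTheory Limits MonoidalCategory Pretriangulated Triangulated

namespace Run7.h478.FF

open Pool.Agent.Y116.MT Run7.h822.MT Pool.Agent.V1178.MT

universe v u w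

open Functor.LaxMonoidal
open scoped ZeroObject

lemma isZero_retr {D : Type*} [Category D] [HasZeroMorphisms D] {X Y : D} (h : IsZero X)
    (i : Y ⟶ X) (r : X ⟶ Y) (hir : i ≫ r = 𝟙 _) : IsZero Y := by
  rw [IsZero.iff_id_eq_zero, ← hir, h.eq_of_tgt i 0, zero_comp]

section

variable {C : Type u} [Category.{v} C] [Preadditive C] [HasZeroObject C] [HasShift C ℤ]
  [∀ n : ℤ, (shiftFunctor C n).Additive] [Pretriangulated C]
  [MonoidalCategory C]
  [SymmetricCategory C] [TensorTriangulated C] [RightRigidCategory C] [Linear ℚ C]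
  [MonoidalPreadditive C]
  {Q : ObjectProperty C} {F : ∀ X : C, X ⟶ X} {Λ : Type*}
  {E : Λ → Type w} [∀ l, Field (E l)] {R : ∀ l, Realisation C (E l)}

lemma isZero_spl {S Z W : C} (s : Spl S Z W) (l : Λ) (i : ℤ) :
    IsZero ((R l).H.obj (Z⟦i⟧)) ↔ IsZero ((R l).H.obj (S⟦i⟧)) ∧ IsZero ((R l).H.obj (W⟦i⟧)) := by
  have s' := (s.map (shiftFunctor C i)).map (R l).H
  constructor
  · intro h
    exact ⟨isZero_retr h s'.i s'.p s'.ip, isZero_retr h s'.j s'.q s'.jq⟩
  · rintro ⟨h1, h2⟩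
    rw [IsZero.iff_id_eq_zero, ← s'.tot, h1.eq_of_tgt s'.p 0, h2.eq_of_tgt s'.q 0, zero_comp,
      zero_comp, add_zero]

variable [Nonempty Λ] [∀ l, CharZero (E l)] (hM : FiniteFieldMotives Q F R) (hN : RatEqNum Q)

include hM hN

/-- Shifts of indecomposable pure motives have cohomology in one degree. -/
lemma simp_pure {S : C} (hS : Simp Q S) : ∃ d : ℤ, ∀ l, (R l).Deg S d ∧
    ¬ IsZero ((R l).H.obj (S⟦d⟧)) := by
  obtain ⟨S', n, hS', ⟨e⟩⟩ := hS
  obtain ⟨d, hd⟩ := hS'.pure hM hN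
  have key : ∀ (i j : ℤ), n + i = j → Nonempty (S⟦i⟧ ≅ S'⟦j⟧) := fun i j h =>
    ⟨(shiftFunctor C i).mapIso e ≪≫ ((shiftFunctorAdd' C n i j h).app S').symm⟩
  refine ⟨d - n, fun l => ⟨fun i hi => ?_, fun h => ?_⟩⟩
  · obtain ⟨e'⟩ := key i (n + i) rfl
    exact ((hd l).1 (n + i) (by omega)).of_iso ((R l).H.mapIso e')
  · obtain ⟨e'⟩ := key (d - n) d (by omega)
    exact (hd l).2 (h.of_iso ((R l).H.mapIso e'.symm))

lemma fs_same {k : ℕ} : ∀ {Z : C}, FS (Simp Q) k Z → ∀ (l l' : Λ) (i : ℤ),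
    IsZero ((R l).H.obj (Z⟦i⟧)) → IsZero ((R l').H.obj (Z⟦i⟧)) := by
  induction k with
  | zero =>
    intro Z hZ l l' i _
    exact (R l').H.map_isZero ((shiftFunctor C i).map_isZero hZ)
  | succ k ih =>
    intro Z hZ l l' i h
    obtain ⟨S, W, hS, hW, ⟨s⟩⟩ := hZ
    rw [isZero_spl s] at h ⊢
    refine ⟨?_, ih hW l l' i h.2⟩
    obtain ⟨d, hd⟩ := simp_pure hM hN hS
    refine (hd l').1 i ?_
    rintro rfl
    exact (hd l).2 h.1

lemma fs_cons {k : ℕ} {Z : C} (hZ : FS (Simp Q) k Z) (l : Λ)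
    (h : ∀ i : ℤ, IsZero ((R l).H.obj (Z⟦i⟧))) : IsZero Z := by
  cases k with
  | zero => exact hZ
  | succ k =>
    obtain ⟨S, W, hS, hW, ⟨s⟩⟩ := hZ
    obtain ⟨d, hd⟩ := simp_pure hM hN hS
    exact absurd ((isZero_spl s l d).1 (h d)).1 (hd l).2

/-- Truncations. -/
lemma fs_trunc [IsTriangulated C] (l : Λ) {k : ℕ} : ∀ {Z : C}, FS (Simp Q) k Z →
    ∃ (A B : C) (f : A ⟶ Z) (g : Z ⟶ B) (h : B ⟶ A⟦(1 : ℤ)⟧),
      Triangle.mk f g h ∈ distTriang C ∧
      (∀ i : ℤ, 0 < i → IsZero ((R l).H.obj (A⟦i⟧))) ∧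
      (∀ i : ℤ, i ≤ 0 → IsZero ((R l).H.obj (B⟦i⟧))) := by
  induction k with
  | zero =>
    intro Z hZ
    refine ⟨Z, 0, 𝟙 Z, 0, 0, contractible_distinguished Z, fun i _ => ?_, fun i _ => ?_⟩
    · exact (R l).H.map_isZero ((shiftFunctor C i).map_isZero hZ)
    · exact (R l).H.map_isZero ((shiftFunctor C i).map_isZero (isZero_zero C))
  | succ k ih =>
    intro Z hZ
    obtain ⟨S, W, hS, hW, ⟨s⟩⟩ := hZ
    obtain ⟨d, hd⟩ := simp_pure hM hN hS
    obtain ⟨A1, B1, f1, g1, h1, hT1, hA1, hB1⟩ := ih hW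
    by_cases hd0 : d ≤ 0
    · obtain ⟨A, a, b, hT⟩ := distinguished_cocone_triangle₁ (s.q ≫ g1)
      have O := someOctahedron (rfl : s.q ≫ g1 = s.q ≫ g1) (rotD s.dist) (rotD hT1) (rotD hT)
      refine ⟨A, B1, a, s.q ≫ g1, b, hT, fun i hi => ?_, hB1⟩
      have h2 : IsZero ((R l).H.obj ((A⟦(1 : ℤ)⟧)⟦i - 1⟧)) := by
        refine hz2 (R l).H O.mem (i - 1) ?_ ?_
        · exact ((hd l).1 i (by omega)).of_iso
            ((R l).H.mapIso ((shiftFunctorAdd' C 1 (i - 1) i (by omega)).app S).symm)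
        · exact (hA1 i hi).of_iso
            ((R l).H.mapIso ((shiftFunctorAdd' C 1 (i - 1) i (by omega)).app A1).symm)
      exact h2.of_iso ((R l).H.mapIso ((shiftFunctorAdd' C 1 (i - 1) i (by omega)).app A))
    · obtain ⟨B, b, c, hT⟩ := distinguished_cocone_triangle (f1 ≫ s.j)
      have hj : Triangle.mk s.j s.p (0 : S ⟶ W⟦(1 : ℤ)⟧) ∈ distTriang C := s.symm.dist
      have O := someOctahedron (rfl : f1 ≫ s.j = f1 ≫ s.j) hT1 hj hT
      refine ⟨A1, B, f1 ≫ s.j, b, c, hT, hA1, fun i hi => ?_⟩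
      exact hz2 (R l).H O.mem i (hB1 i hi) ((hd l).1 i (by omega))

end

section

variable {C : Type u} [Category.{v} C] [Preadditive C] [HasZeroObject C] [HasShift C ℤ]
  [∀ n : ℤ, (shiftFunctor C n).Additive] [Pretriangulated C] [IsTriangulated C]
  [MonoidalCategory C]
  [SymmetricCategory C] [TensorTriangulated C] [RightRigidCategory C] [Linear ℚ C]
  [MonoidalPreadditive C]
  {Q : ObjectProperty C} {F : ∀ X : C, X ⟶ X} {Λ : Type*}
  {E : Λ → Type w} [∀ l, Field (E l)] {R : ∀ l, Realisation C (E l)}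
  (hM : FiniteFieldMotives Q F R)

include hM

/-- A regular category of motives satisfies both conjectures. -/
theorem of_regular (h : IsRegularCat C) : RatEqNum Q ∧ Parshin Q := by
  constructor
  · intro X hX x hx
    obtain ⟨y, hy⟩ := h _ _ x
    refine ⟨y, fun h0 => hx ?_⟩
    rw [← hy, ← Category.assoc, h0, zero_comp]
  · intro X hX n hn f
    obtain ⟨g, hg⟩ := h _ _ f
    rw [← hg, chow_dual hM (Ret.of hX) hn g, zero_comp, comp_zero]

variable [IsIdempotentComplete C] [∀ l, CharZero (E l)]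

/-- A t-structure which is motivic for one realisation gives both conjectures. -/
theorem of_motivic (l : Λ) (h : ∃ t : TStructure C, IsMotivic t (fun _ : Unit => R l)) :
    RatEqNum Q ∧ Parshin Q := by
  obtain ⟨t, h⟩ := h
  have hid := unit_idem hM (not_isZero_unit (R l))
  have ht : TensorCompat t := ⟨h.tensor_le, h.tensor_ge⟩
  have hu : Hrt t (𝟙_ C) := unit_hrt ht h.nondeg_le h.nondeg_ge
  have hR : CE t (R l) := ⟨(truncations_of_motivic hid h).1, ⟨h.exact_le (), h.exact_ge ()⟩⟩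
  exact ⟨ratEqNum_of_t hM hR ht hu hid, parshin_of_t hM hR ht hu hid⟩

/-- If rational and numerical equivalence agree and Parshin's conjecture holds, there is a motivic
t-structure, and the category is regular. -/
theorem of_conjectures [Nonempty Λ] (hN : RatEqNum Q) (hP : Parshin Q) :
    (∃ t : TStructure C, IsMotivic t R) ∧ IsRegularCat C := by
  have hall := fs_all hM hN hP
  constructor
  · obtain ⟨l⟩ := ‹Nonempty Λ›
    have : Nonempty Λ := ⟨l⟩
    have hc : Conservative (R l) := by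
      intro X hX
      obtain ⟨k, hk⟩ := hall X
      exact fs_cons hM hN hk l hX
    have htr : ∀ X : C, ∃ (A : C) (f : A ⟶ X), LooksLikeTruncation (R l) f := by
      intro X
      obtain ⟨k, hk⟩ := hall X
      obtain ⟨A, B, f, g, h, hT, hA, hB⟩ := fs_trunc hM hN l hk
      refine ⟨A, f, hA, fun i hi => ?_⟩
      have m := hmono1 (R l).H hT i (hB (i - 1) (by omega))
      have e := hepi1 (R l).H hT i (hB i hi)
      exact isIso_of_mono_of_epi _
    have h := motivic_tOf hc htr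
    refine ⟨tOf (R l) hc htr, h.nondeg_le, h.nondeg_ge, h.tensor_le, h.tensor_ge, ?_, ?_⟩
    · intro l' X hX i hi
      obtain ⟨k, hk⟩ := hall X
      exact fs_same hM hN hk l l' i (hX i hi)
    · intro l' X hX i hi
      obtain ⟨k, hk⟩ := hall X
      exact fs_same hM hN hk l l' i (hX i hi)
  · intro X Y f
    obtain ⟨k, hk⟩ := hall X
    obtain ⟨k', hk'⟩ := hall Y
    exact FS.regular (isSchur_simp hM hN hP) hk' hk f

end

end Run7.h478.FF
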