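import Pool.Agent.Run7.h478.FF.HeartSide
import Pool.Agent.Y116.MT.Trace

/-!
# Pure motives over a finite field, if rational and numerical equivalence agree
-/

set_option autoImplicit false
set_option linter.unusedSectionVars false
set_option linter.unusedSimpArgs false
set_option backward.isDefEq.respectTransparency false
set_option backward.defeqAttrib.useBackward true

open CategoryTheory Limits MonoidalCategory Pretriangulated Triangulated

namespace Run7.h478.FF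

open Pool.Agent.Y116.MT Run7.h822.MT Pool.Agent.V1178.MT

universe v u w

open Functor.LaxMonoidal

section Kunneth

variable {C : Type u} [Category.{v} C] [Preadditive C] [HasZeroObject C] [HasShift C ℤ]
  [∀ n : ℤ, (shiftFunctor C n).Additive] [Pretriangulated C] [MonoidalCategory C]
  [SymmetricCategory C] [TensorTriangulated C]

lemma lShift_natural_left {X X' : C} (f : X ⟶ X') (Y : C) (n : ℤ) :
    (f⟦n⟧' ▷ Y) ≫ (lShift X' Y n).hom = (lShift X Y n).hom ≫ (f ▷ Y)⟦n⟧' := by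
  simp only [lShift, Iso.trans_hom, Functor.mapIso_hom, Category.assoc]
  rw [BraidedCategory.braiding_naturality_left_assoc]
  rw [← Category.assoc (Y ◁ f⟦n⟧'), rShift_natural_right, Category.assoc, ← Functor.map_comp,
    ← Functor.map_comp, BraidedCategory.braiding_naturality_right]

lemma shiftTensorIso_natural_left {X X' : C} (f : X ⟶ X') (Y : C) (i : ℤ) :
    (f⟦i⟧' ▷ (Y⟦-i⟧)) ≫ (shiftTensorIso X' Y i).hom = (shiftTensorIso X Y i).hom ≫ (f ▷ Y) := by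
  simp only [shiftTensorIso, Iso.trans_hom, Functor.mapIso_hom, Category.assoc]
  rw [← Category.assoc (f⟦i⟧' ▷ _), rShift_natural_left, Category.assoc,
    ← Category.assoc ((f⟦i⟧' ▷ Y)⟦-i⟧'), ← Functor.map_comp, lShift_natural_left,
    Functor.map_comp, Category.assoc]
  congr 2
  exact (shiftFunctorCompIsoId C i (-i) (by omega)).hom.naturality (f ▷ Y)

variable {E : Type w} [Field E] {R : Realisation C E}

/-- If `f` acts as zero on the cohomology, so does `f ▷ W`. -/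
lemma H_whisker_zero {X X' : C} (f : X ⟶ X') (h : ∀ i : ℤ, R.H.map (f⟦i⟧') = 0) (W : C) :
    R.H.map (f ▷ W) = 0 := by
  have h1 : (R.H.map (f ▷ W)).hom ∘ₗ kunnethMap R.H X W = 0 := by
    apply DirectSum.linearMap_ext
    intro i
    ext z
    have h2 : (μ R.H (X⟦i⟧) (W⟦-i⟧) ≫ R.H.map (shiftTensorIso X W i).hom) ≫ R.H.map (f ▷ W) = 0 := by
      rw [Category.assoc, ← Functor.map_comp, ← shiftTensorIso_natural_left, Functor.map_comp,
        ← Category.assoc, ← μ_natural_left, h i]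
      have h3 : (0 : R.H.obj (X⟦i⟧) ⟶ R.H.obj (X'⟦i⟧)) ▷ R.H.obj (W⟦-i⟧) = 0 :=
        (tensorRight _).map_zero _ _
      rw [h3, zero_comp, zero_comp]
    have h4 := LinearMap.congr_fun (congrArg ModuleCat.Hom.hom h2) z
    simp only [LinearMap.comp_apply, LinearMap.zero_comp, LinearMap.zero_apply]
    have h5 : kunnethMap R.H X W (DirectSum.lof E ℤ (fun i : ℤ =>
        (R.H.obj (X⟦i⟧) ⊗ R.H.obj (W⟦-i⟧) : ModuleCat.{w} E)) i z) =
        (μ R.H (X⟦i⟧) (W⟦-i⟧) ≫ R.H.map (shiftTensorIso X W i).hom).hom z :=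
      DirectSum.toModule_lof E (M := fun i : ℤ =>
        (R.H.obj (X⟦i⟧) ⊗ R.H.obj (W⟦-i⟧) : ModuleCat.{w} E)) (φ := fun i : ℤ =>
        (μ R.H (X⟦i⟧) (W⟦-i⟧) ≫ R.H.map (shiftTensorIso X W i).hom).hom) i z
    rw [h5]
    exact h4
  ext z
  obtain ⟨y, rfl⟩ := (R.kunneth X W).2 z
  exact LinearMap.congr_fun h1 y

end Kunneth

section Tr

variable {C : Type u} [Category.{v} C] [MonoidalCategory C] [SymmetricCategory C]
  [RightRigidCategory C]

/-- Every functional on the internal homomorphisms is given by a trace. -/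
lemma exists_tr' {M N : C} (r : N ⊗ Mᘁ ⟶ 𝟙_ C) :
    ∃ b : N ⟶ M, ∀ a : M ⟶ N, nm a ≫ r = tr (a ≫ b) := by
  let _ : ExactPairing (Mᘁ) M := BraidedCategory.exactPairing_swap M Mᘁ
  refine ⟨(tensorRightHomEquiv N Mᘁ M (𝟙_ C)) r ≫ (λ_ M).hom, fun a => ?_⟩
  have h1 : r = ((tensorRightHomEquiv N Mᘁ M (𝟙_ C)) r ≫ (λ_ M).hom) ▷ Mᘁ ≫
      (β_ M Mᘁ).hom ≫ ε_ M Mᘁ := by
    conv_lhs => rw [← (tensorRightHomEquiv N Mᘁ M (𝟙_ C)).symm_apply_apply r]
    have h2 : ε_ (Mᘁ) M = (β_ M Mᘁ).hom ≫ ε_ M Mᘁ := rfl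
    rw [← h2]
    generalize (tensorRightHomEquiv N Mᘁ M (𝟙_ C)) r = b
    simp only [tensorRightHomEquiv, Equiv.coe_fn_symm_mk]
    rw [← unitors_equal, leftUnitor_naturality, comp_whiskerRight, Category.assoc,
      leftUnitor_tensor_hom_assoc]
    simp
  conv_lhs => rw [h1]
  simp only [nm, tr, comp_whiskerRight, Category.assoc]

end Tr

section Iso

variable {C : Type u} [Category.{v} C] [Preadditive C] [HasZeroObject C] [HasShift C ℤ]
  [∀ n : ℤ, (shiftFunctor C n).Additive] [Pretriangulated C] [MonoidalCategory C]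
  [SymmetricCategory C] [TensorTriangulated C] [RightRigidCategory C]

lemma trh_naturality {X X' Y Y' Z : C} [ExactPairing Y Y'] (f : X ⟶ X') (h : X' ⊗ Y ⟶ Z) :
    (tensorRightHomEquiv X Y Y' Z) (f ▷ Y ≫ h) = f ≫ (tensorRightHomEquiv X' Y Y' Z) h := by
  rw [← (tensorRightHomEquiv X Y Y' Z).symm.injective.eq_iff, Equiv.symm_apply_apply,
    tensorRightHomEquiv_symm_naturality, Equiv.symm_apply_apply]

/-- The correspondence between morphisms to `Y⟦d⟧ ⊗ (S⟦d⟧)ᘁ` and to `Y ⊗ Sᘁ`. -/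
noncomputable def shEquiv (S Y : C) (d : ℤ) (A : C) :
    (A ⟶ Y⟦d⟧ ⊗ ((S⟦d⟧)ᘁ : C)) ≃ (A ⟶ Y ⊗ (Sᘁ : C)) :=
  (tensorRightHomEquiv A (S⟦d⟧) (S⟦d⟧)ᘁ (Y⟦d⟧)).symm.trans
    (((rShift A S d).homFromEquiv).trans
      (((Functor.FullyFaithful.ofFullyFaithful (shiftFunctor C d)).homEquiv
        (X := A ⊗ S) (Y := Y)).symm.trans (tensorRightHomEquiv A S Sᘁ Y)))

lemma shEquiv_naturality (S Y : C) (d : ℤ) {A A' : C} (f : A' ⟶ A)
    (g : A ⟶ Y⟦d⟧ ⊗ ((S⟦d⟧)ᘁ : C)) : shEquiv S Y d A' (f ≫ g) = f ≫ shEquiv S Y d A g := by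
  simp only [shEquiv, Equiv.trans_apply]
  rw [← trh_naturality]
  congr 1
  rw [Equiv.symm_apply_eq]
  have h1 : (Functor.FullyFaithful.ofFullyFaithful (shiftFunctor C d)).homEquiv (f ▷ S ≫
      ((Functor.FullyFaithful.ofFullyFaithful (shiftFunctor C d)).homEquiv
        (X := A ⊗ S) (Y := Y)).symm ((rShift A S d).homFromEquiv
          ((tensorRightHomEquiv A (S⟦d⟧) (S⟦d⟧)ᘁ (Y⟦d⟧)).symm g))) =
      (f ▷ S)⟦d⟧' ≫ (rShift A S d).inv ≫ (tensorRightHomEquiv A (S⟦d⟧) (S⟦d⟧)ᘁ (Y⟦d⟧)).symm g := by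
    have h2 := ((Functor.FullyFaithful.ofFullyFaithful (shiftFunctor C d)).homEquiv
        (X := A ⊗ S) (Y := Y)).apply_symm_apply ((rShift A S d).homFromEquiv
          ((tensorRightHomEquiv A (S⟦d⟧) (S⟦d⟧)ᘁ (Y⟦d⟧)).symm g))
    simp only [Functor.FullyFaithful.homEquiv_apply] at h2 ⊢
    rw [Functor.map_comp, h2]
    rfl
  rw [h1, tensorRightHomEquiv_symm_naturality]
  change (rShift A' S d).inv ≫ f ▷ S⟦d⟧ ≫ _ = _
  rw [← Category.assoc, ← Category.assoc]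
  congr 1
  rw [Iso.inv_comp_eq, ← Category.assoc, ← rShift_natural_left, Category.assoc, Iso.hom_inv_id,
    Category.comp_id]

/-- `Y⟦d⟧ ⊗ (S⟦d⟧)ᘁ` is isomorphic to `Y ⊗ Sᘁ`. -/
noncomputable def shIso (S Y : C) (d : ℤ) : Y⟦d⟧ ⊗ ((S⟦d⟧)ᘁ : C) ≅ Y ⊗ (Sᘁ : C) :=
  Yoneda.ext _ _ (fun {A} => shEquiv S Y d A) (fun {A} => (shEquiv S Y d A).symm)
    (fun f => Equiv.symm_apply_apply _ f) (fun f => Equiv.apply_symm_apply _ f)
    (fun f g => shEquiv_naturality S Y d f g)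

end Iso

end Run7.h478.FF
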